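import Pool.Agent.H89.RF.Away

/-!
# The model at the primes above `r`
-/

namespace H89RF

open NumberField Polynomial

theorem tau_id {R : Type} [CommRing R] (g : ℕ) (n P : R) :
    ∃ c : R, 16 ^ (2 * g + 1) * (n ^ g * (64 * n - P) ^ (g + 1)) - 8 * (128 * n - P) ^ (2 * g + 1)
      = P * (-(8 * 16384 ^ g * n ^ (2 * g)) + P * c) := by
  obtain ⟨k1, h1⟩ := Polynomial.powAddExpansion (64 * n) (-P) (g + 1)
  obtain ⟨k2, h2⟩ := Polynomial.powAddExpansion (128 * n) (-P) (2 * g + 1)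
  have e1 : 64 * n - P = 64 * n + -P := by ring
  have e2 : 128 * n - P = 128 * n + -P := by ring
  rw [Nat.add_sub_cancel] at h1 h2
  have hM : (16384 : R) ^ g = 256 ^ g * 64 ^ g := by rw [← mul_pow]; norm_num
  have h16 : (16 : R) ^ (2 * g + 1) = 16 * 256 ^ g := by
    rw [pow_succ, pow_mul]; norm_num; ring
  have h64 : (64 * n) ^ (g + 1) = 64 * (64 ^ g * (n ^ g * n)) := by ring
  have h64' : (64 * n) ^ g = 64 ^ g * n ^ g := by ring
  have h128 : (128 * n) ^ (2 * g) = 16384 ^ g * (n ^ g * n ^ g) := by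
    rw [mul_pow, pow_mul]; norm_num; ring
  have h128' : (128 * n) ^ (2 * g + 1) = 128 * (16384 ^ g * (n ^ g * n ^ g * n)) := by
    rw [pow_succ, h128]; ring
  have hn : n ^ (2 * g) = n ^ g * n ^ g := by rw [two_mul, pow_add]
  refine ⟨16 * 256 ^ g * n ^ g * k1 - 8 * k2, ?_⟩
  rw [e1, e2, h1, h2, h16, h64, h64', h128, h128', hM, hn]
  push_cast
  ring

theorem scaleRoots_pow_sub_one {k : Type} [Field k] (g : ℕ) (hg : 1 ≤ g) (t : k) :
    (X ^ g - 1 : k[X]).scaleRoots t = X ^ g - C (t ^ g) := by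
  have hd : (X ^ g - 1 : k[X]).natDegree = g := by
    have : (X ^ g - 1 : k[X]) = X ^ g - C 1 := by rw [C_1]
    rw [this, natDegree_X_pow_sub_C]
  ext i
  rw [coeff_scaleRoots, hd]
  have e1 : (X ^ g - 1 : k[X]) = X ^ g - C 1 := by rw [C_1]
  rw [e1, coeff_sub, coeff_sub, coeff_X_pow, coeff_C, coeff_C]
  by_cases h1 : i = g
  · subst h1
    have : i ≠ 0 := by omega
    simp [this]
  · by_cases h0 : i = 0
    · subst h0
      simp [h1]
    · simp [h1, h0]

theorem dick_comp_scale {R : Type} [CommRing R] (s a : R) (p : R[X]) (n : ℕ) :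
    (dickson 1 (s ^ 2 * a) n).comp (C s * p) = C (s ^ n) * (dickson 1 a n).comp p := by
  induction n using Nat.twoStepInduction with
  | zero => simp
  | one => simp
  | more n ih1 ih2 =>
    simp only [dickson_add_two, sub_comp, mul_comp, X_comp, C_comp]
    rw [ih1, ih2]
    simp only [C_mul, C_pow]
    ring

/-- the homogeneous version of the identity for `Φ` -/
theorem scale_id {R : Type} [CommRing R] [IsDomain R] [Infinite R] (g : ℕ) (π s : R)
    (Φ : R[X]) (hs : s ≠ 0) (hΦd : Φ.natDegree = g)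
    (hΦ : C (π ^ (2 * g + 1)) * X * Φ ^ 2 = (dickson 1 (1 : R) (2 * g + 1)).comp (C π * X - 2) + 2) :
    C (π ^ (2 * g + 1)) * X * (Φ.scaleRoots s) ^ 2
      = (dickson 1 (s ^ 2) (2 * g + 1)).comp (C π * X - C (2 * s)) + C (2 * s ^ (2 * g + 1)) := by
  apply Polynomial.eq_of_infinite_eval_eq
  refine Set.Infinite.mono (s := Set.range fun x : R => s * x) ?_
    (Set.infinite_range_of_injective fun x y hxy => mul_left_cancel₀ hs hxy)
  rintro _ ⟨x, rfl⟩
  have h1 : (Φ.scaleRoots s).eval (s * x) = s ^ g * Φ.eval x := by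
    have := scaleRoots_eval₂_mul (p := Φ) (RingHom.id R) x s
    simp only [RingHom.id_apply] at this
    rw [← hΦd]
    exact this
  have h2 := congrArg (fun f : R[X] => f.eval x) hΦ
  simp only [eval_mul, eval_C, eval_X, eval_pow, eval_add, eval_comp, eval_sub, eval_ofNat] at h2
  have h3 : (dickson 1 (s ^ 2) (2 * g + 1)).eval (π * (s * x) - 2 * s)
      = s ^ (2 * g + 1) * (dickson 1 1 (2 * g + 1)).eval (π * x - 2) := by
    have := dick_scale s 1 (π * x - 2) (2 * g + 1)
    rw [mul_one] at this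
    rw [← this]
    congr 1
    ring
  simp only [Set.mem_ofPred_eq, eval_mul, eval_C, eval_X, eval_pow, eval_add, eval_comp, eval_sub]
  rw [h1, h3]
  have e : π ^ (2 * g + 1) * (s * x) * (s ^ g * eval x Φ) ^ 2
      = s ^ (2 * g + 1) * (π ^ (2 * g + 1) * x * eval x Φ ^ 2) := by ring
  rw [e, h2]
  ring

end H89RF
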