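import Pool.Agent.H89.RF.AtR

/-!
# The model at the primes above `r`
-/

namespace H89RF

open NumberField Polynomial

/-- the second model -/
theorem exists_G {R : Type} [CommRing R] [IsDomain R] [Infinite R] (g : ℕ) (hg : 1 ≤ g)
    (π u P n ρ s : R) (Φ : R[X]) (hs0 : s ≠ 0) (hΦm : Φ.Monic) (hΦd : Φ.natDegree = g)
    (hΦ : C (π ^ (2 * g + 1)) * X * Φ ^ 2 = (dickson 1 (1 : R) (2 * g + 1)).comp (C π * X - 2) + 2)
    (hP : P = π ^ (2 * g + 1) * u) (hρ : ρ = 64 * n - P) (hs : s = 128 * n - P) (h4 : (4 : R) ≠ 0) :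
    ∃ (G : R[X]) (τ c : R),
      C (π ^ (2 * g + 1)) * G = 4 * (dickson 1 (256 * (n * ρ)) (2 * g + 1)).comp
        (C π * X - C (2 * s)) + C (16 ^ (2 * g + 1) * (n ^ g * ρ ^ (g + 1))) ∧
      G.natDegree = 2 * g + 1 ∧ G.leadingCoeff = 4 ∧
      τ = u * (-(8 * 16384 ^ g * n ^ (2 * g)) + P * c) ∧
      ∀ (k : Type) [Field k] (φ : R →+* k), φ π = 0 → Φ.map φ = X ^ g - 1 →
        G.map φ = 4 * X * (X ^ g - C (φ s ^ g)) ^ 2 + C (φ τ) := by
  obtain ⟨c, hc⟩ := tau_id g n P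
  rw [← hρ, ← hs] at hc
  obtain ⟨H, hH, hHd⟩ := dick_sub (s ^ 2) (256 * (n * ρ)) (2 * g + 1)
  have hab : 256 * (n * ρ) - s ^ 2 = -P ^ 2 := by rw [hρ, hs]; ring
  rw [hab] at hH
  have hsc := scale_id g π s Φ hs0 hΦd hΦ
  obtain ⟨Ψ, hΨ⟩ : ∃ Ψ, Ψ = Φ.scaleRoots s := ⟨_, rfl⟩
  rw [← hΨ] at hsc
  have hΨm : Ψ.Monic := by rw [hΨ]; exact (monic_scaleRoots_iff s).2 hΦm
  have hΨd : Ψ.natDegree = g := by rw [hΨ, natDegree_scaleRoots, hΦd]
  obtain ⟨τ, hτ⟩ : ∃ τ, τ = u * (-(8 * 16384 ^ g * n ^ (2 * g)) + P * c) := ⟨_, rfl⟩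
  obtain ⟨A, hA⟩ : ∃ A : R[X], A = X * Ψ ^ 2 := ⟨_, rfl⟩
  have hAm : A.Monic := by rw [hA]; exact monic_X.mul (hΨm.pow 2)
  have hAd : A.natDegree = 2 * g + 1 := by
    rw [hA, natDegree_mul X_ne_zero (pow_ne_zero _ hΨm.ne_zero), natDegree_X, natDegree_pow, hΨd]
    ring
  obtain ⟨E, hE⟩ : ∃ E : R[X], E = C τ - C (4 * u * P) * H.comp (C π * X - C (2 * s)) := ⟨_, rfl⟩
  have hEd : E.degree < ((2 * g + 1 : ℕ) : WithBot ℕ) := by
    rw [hE]
    refine lt_of_le_of_lt (degree_sub_le _ _) (max_lt ?_ ?_)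
    · exact lt_of_le_of_lt degree_C_le (by norm_cast; omega)
    · refine lt_of_le_of_lt (degree_mul_le _ _) ?_
      refine lt_of_le_of_lt (add_le_add degree_C_le le_rfl) ?_
      rw [zero_add]
      have hL : (C π * X - C (2 * s)).natDegree ≤ 1 := by
        refine (natDegree_sub_le _ _).trans (max_le ?_ ?_)
        · exact (natDegree_C_mul_le _ _).trans natDegree_X_le
        · rw [natDegree_C]; omega
      have hHn : H.natDegree < 2 * g + 1 := by
        by_cases hH0 : H = 0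
        · rw [hH0, natDegree_zero]; omega
        · rw [degree_eq_natDegree hH0] at hHd
          exact_mod_cast hHd
      refine lt_of_le_of_lt degree_le_natDegree ?_
      have : (H.comp (C π * X - C (2 * s))).natDegree ≤ H.natDegree * 1 :=
        natDegree_comp_le.trans (Nat.mul_le_mul_left _ hL)
      norm_cast
      omega
  refine ⟨C 4 * A + E, τ, c, ?_, ?_, ?_, hτ, ?_⟩
  · have c4 : (C 4 : R[X]) = 4 := map_ofNat C 4
    have h8 : C (16 ^ (2 * g + 1) * (n ^ g * ρ ^ (g + 1)))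
        = C (8 * s ^ (2 * g + 1)) + C (P * (-(8 * 16384 ^ g * n ^ (2 * g)) + P * c)) := by
      rw [← C_add, ← hc]
      congr 1
      ring
    have hD : dickson 1 (256 * (n * ρ)) (2 * g + 1)
        = dickson 1 (s ^ 2) (2 * g + 1) + C (-P ^ 2) * H := by
      linear_combination hH
    rw [hD, h8, add_comp, mul_comp, C_comp, hE, hτ, hA]
    have e1 : C (2 * s ^ (2 * g + 1)) = C 2 * C (s ^ (2 * g + 1)) := C_mul
    have e2 : C (8 * s ^ (2 * g + 1)) = C 8 * C (s ^ (2 * g + 1)) := C_mul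
    have c2 : (C 2 : R[X]) = 2 := map_ofNat C 2
    have c8 : (C 8 : R[X]) = 8 := map_ofNat C 8
    rw [e2, c8]
    rw [e1, c2] at hsc
    have e3 : C (π ^ (2 * g + 1)) * C (u * (-(8 * 16384 ^ g * n ^ (2 * g)) + P * c))
        = C (P * (-(8 * 16384 ^ g * n ^ (2 * g)) + P * c)) := by
      rw [← C_mul]
      congr 1
      linear_combination (-(-(8 * 16384 ^ g * n ^ (2 * g)) + P * c)) * hP
    have e4 : C (π ^ (2 * g + 1)) * C (4 * u * P) = 4 * C (P ^ 2) := by
      rw [← c4, ← C_mul, ← C_mul]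
      congr 1
      linear_combination (-4 * P) * hP
    rw [c4, C_neg]
    linear_combination 4 * hsc + e3 - (H.comp (C π * X - C (2 * s))) * e4
  · have h1 : (C 4 * A).natDegree = 2 * g + 1 := by rw [natDegree_C_mul h4, hAd]
    have h2 : (C 4 * A).degree = ((2 * g + 1 : ℕ) : WithBot ℕ) := by
      rw [degree_eq_natDegree (mul_ne_zero (C_ne_zero.2 h4) hAm.ne_zero), h1]
    rw [natDegree_add_eq_left_of_degree_lt (by rw [h2]; exact hEd), h1]
  · have h1 : (C 4 * A).natDegree = 2 * g + 1 := by rw [natDegree_C_mul h4, hAd]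
    have h2 : (C 4 * A).degree = ((2 * g + 1 : ℕ) : WithBot ℕ) := by
      rw [degree_eq_natDegree (mul_ne_zero (C_ne_zero.2 h4) hAm.ne_zero), h1]
    rw [leadingCoeff_add_of_degree_lt' (by rw [h2]; exact hEd), leadingCoeff_mul, leadingCoeff_C,
      hAm.leadingCoeff, mul_one]
  · intro k _ φ hφ hΦk
    have hP0 : φ P = 0 := by
      rw [hP, map_mul, map_pow, hφ, zero_pow (by omega), zero_mul]
    have h1 : Ψ.map φ = X ^ g - C (φ s ^ g) := by
      rw [hΨ, map_scaleRoots _ _ _ (by rw [hΦm.leadingCoeff, map_one]; exact one_ne_zero), hΦk,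
        scaleRoots_pow_sub_one g hg]
    have h5 : φ (4 * u * P) = 0 := by rw [map_mul, hP0, mul_zero]
    rw [Polynomial.map_add, Polynomial.map_mul, hA, hE, Polynomial.map_sub, Polynomial.map_mul,
      Polynomial.map_mul, Polynomial.map_pow, map_C, map_C, map_C, map_X, h1, h5, C_0, zero_mul,
      sub_zero]
    have c4 : (C (φ 4) : k[X]) = 4 := by rw [map_ofNat]; exact map_ofNat C 4
    rw [c4]
    ring

/-- no singular points in characteristic `r` -/
theorem smooth_r {k : Type} [Field k] (g : ℕ) (hg : 1 ≤ g) (t τ x : k)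
    (hr : ((2 * g + 1 : ℕ) : k) = 0) (ht : t ≠ 0) (hτ : τ ≠ 0) (h2 : (2 : k) ≠ 0)
    (h0 : (4 * X * (X ^ g - C t) ^ 2 + C τ : k[X]).eval x = 0)
    (h1 : (derivative (4 * X * (X ^ g - C t) ^ 2 + C τ : k[X])).eval x = 0) : False := by
  obtain ⟨m, rfl⟩ : ∃ m, g = m + 1 := ⟨g - 1, by omega⟩
  have c4 : (4 : k[X]) = C 4 := (map_ofNat C 4).symm
  have h4 : (4 : k) ≠ 0 := by
    have : (4 : k) = 2 * 2 := by norm_num
    rw [this]; exact mul_ne_zero h2 h2
  rw [c4] at h0 h1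
  simp only [eval_add, eval_mul, eval_C, eval_X, eval_pow, eval_sub] at h0
  simp only [derivative_add, derivative_mul, derivative_C, derivative_X, derivative_pow,
    derivative_sub, derivative_X_pow, eval_add, eval_mul, eval_C, eval_X, eval_pow, eval_sub,
    zero_mul, mul_one, add_zero, zero_add, sub_zero, eval_natCast, Nat.add_sub_cancel] at h1
  push_cast at hr h1
  have h3 : 4 * (x ^ (m + 1) - t) * t = 0 := by
    linear_combination (-1 : k) * h1 + (4 * (x ^ (m + 1) - t) * x ^ (m + 1)) * hr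
  have h5 : x ^ (m + 1) - t = 0 := by
    have := (mul_eq_zero.1 h3).resolve_right ht
    exact (mul_eq_zero.1 this).resolve_left h4
  apply hτ
  rw [h5] at h0
  linear_combination h0

end H89RF
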