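import Pool.Agent.H89.RF.AtR2

/-!
# Good reduction above `r`
-/

namespace H89RF

open NumberField Polynomial

variable {F : Type} [Field F] [NumberField F]

theorem two_notMem {r : ℕ} (hr : r.Prime) (hr2 : r ≠ 2) {v : Ideal (𝓞 F)} (hv : v.IsPrime)
    (hrv : (r : 𝓞 F) ∈ v) : (2 : 𝓞 F) ∉ v := by
  intro h2
  apply hv.ne_top
  rw [Ideal.eq_top_iff_one]
  have hodd : r % 2 = 1 := (hr.eq_two_or_odd).resolve_left hr2
  obtain ⟨g, hg⟩ : ∃ g, r = 2 * g + 1 := ⟨(r - 1) / 2, by omega⟩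
  have e : (1 : 𝓞 F) = (r : 𝓞 F) - g * 2 := by rw [hg]; push_cast; ring
  rw [e]
  exact v.sub_mem hrv (v.mul_mem_left _ h2)

/-- good models at the primes above `r` -/
theorem good_r {r : ℕ} (hr : r.Prime) (hr2 : r ≠ 2) {w : 𝓞 F} (hw : IsTrace r w)
    (n R : 𝓞 F) (hR : R = 64 * n - (4 - w ^ 2) ^ r)
    (v : Ideal (𝓞 F)) (hv : v.IsPrime) (hrv : (r : 𝓞 F) ∈ v) (hnv : n ∉ v) :
    HasGoodModel (curvePoly r w n R) v := by
  obtain ⟨-, hu2, -, hπ0, -, -, Φ, hΦm, hΦd, hΦ, hΦk⟩ := facts hr hr2 hw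
  have hodd : r % 2 = 1 := (hr.eq_two_or_odd).resolve_left hr2
  obtain ⟨g, hg⟩ : ∃ g, r = 2 * g + 1 := ⟨(r - 1) / 2, by omega⟩
  have hg0 : 1 ≤ g := by have := hr.two_le; omega
  have hg1 : (r - 1) / 2 = g := by omega
  have hg2 : (r + 1) / 2 = g + 1 := by omega
  have h2v := two_notMem hr hr2 hv hrv
  have hpow : ∀ m : ℕ, (2 : 𝓞 F) ^ m ∉ v := fun m h => h2v (hv.mem_of_pow_mem m h)
  have hπv : 2 - w ∈ v := ((mem_iff hr hr2 hw hv).1).1 hrv
  have hΛv : 4 - w ^ 2 ∈ v := ((mem_iff hr hr2 hw hv).2).2 hπv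
  have huv : 2 + w ∉ v := fun h => hv.ne_top (Ideal.eq_top_of_isUnit_mem v h hu2)
  obtain ⟨s, hs⟩ : ∃ s, s = 128 * n - (4 - w ^ 2) ^ r := ⟨_, rfl⟩
  have hPv : (4 - w ^ 2) ^ r ∈ v := v.pow_mem_of_mem hΛv r hr.pos
  have hsv : s ∉ v := by
    intro h
    have h1 : 128 * n ∈ v := by
      have e : 128 * n = s + (4 - w ^ 2) ^ r := by rw [hs]; ring
      rw [e]
      exact v.add_mem h hPv
    rcases hv.mem_or_mem h1 with h | h
    · exact hpow 7 (by norm_num; exact h)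
    · exact hnv h
  have hs0 : s ≠ 0 := fun h => hsv (by rw [h]; exact v.zero_mem)
  have hPu : (4 - w ^ 2) ^ r = (2 - w) ^ (2 * g + 1) * (2 + w) ^ (2 * g + 1) := by
    rw [← mul_pow, hg]
    congr 1
    ring
  have h40 : (4 : 𝓞 F) ≠ 0 := by norm_num
  rw [hg] at hΦ
  rw [hg1] at hΦd
  obtain ⟨G, τ, c, hG, hGd, hGl, hτ, hGk⟩ := exists_G g hg0 (2 - w) ((2 + w) ^ (2 * g + 1))
    ((4 - w ^ 2) ^ r) n R s Φ hs0 hΦm hΦd hΦ hPu hR hs h40
  have hτv : τ ∉ v := by
    rw [hτ]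
    intro h
    rcases hv.mem_or_mem h with h | h
    · exact huv (hv.mem_of_pow_mem _ h)
    · have h1 : 8 * 16384 ^ g * n ^ (2 * g) ∈ v := by
        have e : 8 * 16384 ^ g * n ^ (2 * g)
            = c * (4 - w ^ 2) ^ r - (-(8 * 16384 ^ g * n ^ (2 * g)) + (4 - w ^ 2) ^ r * c) := by
          ring
        rw [e]
        exact v.sub_mem (v.mul_mem_left _ hPv) h
      rcases hv.mem_or_mem h1 with h | h
      · have e : (8 * 16384 ^ g : 𝓞 F) = 2 ^ (14 * g + 3) := by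
          rw [pow_add, pow_mul]
          norm_num
          ring
        rw [e] at h
        exact hpow _ h
      · exact hnv (hv.mem_of_pow_mem _ h)
  obtain ⟨P, hP⟩ : ∃ P : (𝓞 F)[X], P = C (-(2 + w)) * G := ⟨_, rfl⟩
  have hu0 : -(2 + w) ≠ 0 := by
    intro h
    apply huv
    rw [neg_eq_zero.1 h]
    exact v.zero_mem
  have hPd : P.natDegree = r := by rw [hP, natDegree_C_mul hu0, hGd, hg]
  have hw4 : (w : F) ^ 2 - 4 ≠ 0 := by
    intro h
    have h1 : 4 - w ^ 2 = 0 := by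
      apply RingOfIntegers.coe_injective
      show algebraMap (𝓞 F) F (4 - w ^ 2) = algebraMap (𝓞 F) F 0
      rw [map_sub, map_pow, map_ofNat, map_zero]
      linear_combination -h
    have h2 : (2 - w) * (2 + w) = 0 := by
      rw [← h1]
      ring
    rcases mul_eq_zero.1 h2 with h | h
    · exact hπ0 h
    · apply huv
      rw [h]
      exact v.zero_mem
  obtain ⟨p, hp⟩ : ∃ p : F, p = 2 - (w : F) := ⟨_, rfl⟩
  have hp' : algebraMap (𝓞 F) F (2 - w) = p := by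
    rw [hp, map_sub, map_ofNat]
  have hp0 : p ≠ 0 := by
    intro h
    apply hπ0
    apply RingOfIntegers.coe_injective
    show algebraMap (𝓞 F) F (2 - w) = algebraMap (𝓞 F) F 0
    rw [hp', h, map_zero]
  refine ⟨P, 0, p / 16, -(s : F) / 8, 4 * 4 ^ (2 * g + 1) / p ^ (g + 1), ?_, ?_, ?_, ?_, ?_, ?_, ?_⟩
  · exact div_ne_zero hp0 (by norm_num)
  · exact div_ne_zero (mul_ne_zero (by norm_num) (pow_ne_zero _ (by norm_num)))
      (pow_ne_zero _ hp0)
  · rw [hPd, curve_natDegree hr.one_lt.le w n R hw4]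
  · rw [hP, leadingCoeff_mul, leadingCoeff_C, hGl]
    intro h
    rcases hv.mem_or_mem h with h | h
    · exact huv ((neg_mem_iff).1 h)
    · exact hpow 2 (by norm_num; exact h)
  · rw [natDegree_zero, hPd, hg]
    omega
  · obtain ⟨T, hT⟩ : ∃ T : F, T = (n : F) ^ g * (R : F) ^ (g + 1) := ⟨_, rfl⟩
    obtain ⟨L, hL⟩ : ∃ L : F[X], L = C (p / 16) * X + C (-(s : F) / 8) := ⟨_, rfl⟩
    obtain ⟨K, hK⟩ : ∃ K : F[X], K = (dickson 1 ((n : F) * R) (2 * g + 1)).comp L + C (T / 4) :=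
      ⟨_, rfl⟩
    obtain ⟨GF, hGF⟩ : ∃ GF : F[X], GF = G.map (algebraMap (𝓞 F) F) := ⟨_, rfl⟩
    have hL16 : C (16 : F) * L = C p * X - C (2 * (s : F)) := by
      rw [hL, mul_add, ← mul_assoc, ← C_mul, ← C_mul]
      have e1 : (16 : F) * (p / 16) = p := by field_simp
      have e2 : (16 : F) * (-(s : F) / 8) = -(2 * (s : F)) := by ring
      rw [e1, e2, C_neg, sub_eq_add_neg]
    have hsc := dick_comp_scale (16 : F) ((n : F) * R) L (2 * g + 1)
    rw [hL16] at hsc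
    have c4 : (C 4 : F[X]) = 4 := map_ofNat C 4
    have hGm : C (p ^ (2 * g + 1)) * GF = C (4 * 16 ^ (2 * g + 1)) * K := by
      have h1 := congrArg (Polynomial.map (algebraMap (𝓞 F) F)) hG
      have e5 : algebraMap (𝓞 F) F ((2 - w) ^ (2 * g + 1)) = p ^ (2 * g + 1) := by
        rw [map_pow, hp']
      have e6 : algebraMap (𝓞 F) F (256 * (n * R)) = 16 ^ 2 * ((n : F) * R) := by
        rw [map_mul, map_mul, map_ofNat]
        norm_num
      have e7 : algebraMap (𝓞 F) F (2 * s) = 2 * (s : F) := by rw [map_mul, map_ofNat]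
      have e8 : algebraMap (𝓞 F) F (16 ^ (2 * g + 1) * (n ^ g * R ^ (g + 1)))
          = 16 ^ (2 * g + 1) * T := by
        rw [hT, map_mul, map_mul, map_pow, map_pow, map_pow, map_ofNat]
      rw [Polynomial.map_mul, Polynomial.map_add, Polynomial.map_mul, map_comp,
        Polynomial.map_sub, Polynomial.map_mul, map_C, map_C, map_C, map_C, map_X, map_dickson,
        Polynomial.map_ofNat, e5, e6, e7, e8, hp', ← hGF, hsc] at h1
      rw [h1, hK]
      have e9 : C (16 ^ (2 * g + 1) * T) = C (4 * 16 ^ (2 * g + 1)) * C (T / 4) := by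
        rw [← C_mul]
        congr 1
        ring
      rw [e9, C_mul (a := (4 : F)), c4]
      ring
    have hcomp : (curvePoly r w n R).comp L = C ((w : F) ^ 2 - 4) * K := by
      rw [curvePoly, hg1, hg2, mul_comp, C_comp, add_comp, C_comp, hK, hT, hg]
    rw [← hL, hcomp]
    have hlhs : (4 * P + 0 ^ 2 : (𝓞 F)[X]).map (algebraMap (𝓞 F) F)
        = C (4 * -(2 + (w : F))) * GF := by
      have e5 : algebraMap (𝓞 F) F (-(2 + w)) = -(2 + (w : F)) := by
        rw [map_neg, map_add, map_ofNat]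
      rw [zero_pow two_ne_zero, add_zero, hP, Polynomial.map_mul, Polynomial.map_mul, map_C, e5,
        Polynomial.map_ofNat, ← hGF, C_mul, c4]
      ring
    rw [hlhs]
    have hne : (C (4 * 16 ^ (2 * g + 1)) : F[X]) ≠ 0 :=
      C_ne_zero.2 (mul_ne_zero (by norm_num) (pow_ne_zero _ (by norm_num)))
    apply mul_left_cancel₀ hne
    have e1 : C (4 * 16 ^ (2 * g + 1))
        * (C ((4 * 4 ^ (2 * g + 1) / p ^ (g + 1)) ^ 2) * (C ((w : F) ^ 2 - 4) * K))
        = C ((4 * 4 ^ (2 * g + 1) / p ^ (g + 1)) ^ 2 * ((w : F) ^ 2 - 4))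
          * (C (4 * 16 ^ (2 * g + 1)) * K) := by
      rw [C_mul (a := (4 * 4 ^ (2 * g + 1) / p ^ (g + 1)) ^ 2)]
      ring
    rw [e1, ← hGm, ← mul_assoc, ← mul_assoc, ← C_mul, ← C_mul]
    congr 2
    have hpw : (w : F) ^ 2 - 4 = -(p * (2 + (w : F))) := by rw [hp]; ring
    obtain ⟨q, hq⟩ : ∃ q : F, q = 4 ^ (2 * g + 1) := ⟨_, rfl⟩
    have h16 : (16 : F) ^ (2 * g + 1) = q ^ 2 := by
      rw [hq, ← pow_mul, mul_comm (2 * g + 1) 2, pow_mul]
      norm_num
    have hpp : (p ^ (g + 1)) ^ 2 = p * p ^ (2 * g + 1) := by ring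
    have hpg : p ^ (2 * g + 1) ≠ 0 := pow_ne_zero _ hp0
    rw [hpw, h16, ← hq, div_pow, hpp]
    generalize p ^ (2 * g + 1) = pg at *
    field_simp
  · intro k _ φ hφ x y
    rintro ⟨h1, h2, h3⟩
    have hz : ∀ z : 𝓞 F, z ∉ v → φ z ≠ 0 := by
      intro z hz h
      apply hz
      rw [← hφ]
      exact h
    have hz0 : ∀ z : 𝓞 F, z ∈ v → φ z = 0 := by
      intro z hz
      rw [← hφ] at hz
      exact hz
    have hπk := hz0 _ hπv
    have h2k : (2 : k) ≠ 0 := by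
      have := hz _ h2v
      rwa [map_ofNat] at this
    have hrk : ((2 * g + 1 : ℕ) : k) = 0 := by
      rw [← hg]
      have := hz0 _ hrv
      rwa [map_natCast] at this
    have hGm := hGk k φ hπk (by have := hΦk k φ hπk; rwa [hg1] at this)
    have hy : y = 0 := by
      rw [Polynomial.map_zero, eval_zero, add_zero] at h2
      exact (mul_eq_zero.1 h2).resolve_left h2k
    have hPk : P.map φ = C (-φ (2 + w)) * G.map φ := by
      rw [hP, Polynomial.map_mul, map_C, map_neg φ (2 + w)]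
    have hun : -φ (2 + w) ≠ 0 := neg_ne_zero.2 (hz _ huv)
    rw [hPk, hGm] at h1 h3
    rw [hy, Polynomial.map_zero, eval_zero, eval_mul, eval_C] at h1
    rw [Polynomial.map_zero, derivative_zero, eval_zero, zero_mul, derivative_mul, derivative_C,
      zero_mul, zero_add, eval_mul, eval_C] at h3
    apply smooth_r g hg0 (φ s ^ g) (φ τ) x hrk (pow_ne_zero _ (hz _ hsv)) (hz _ hτv) h2k
    · apply (mul_eq_zero.1 (Eq.symm ?_)).resolve_left hun
      rw [← h1]
      ring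
    · exact (mul_eq_zero.1 h3.symm).resolve_left hun

end H89RF
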