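import Pool.Agent.H89.RF.Basic

/-!
# The model away from `r`
-/

namespace H89RF

open NumberField Polynomial

variable {F : Type} [Field F] [NumberField F]

/-- the discriminant identity -/
theorem disc_id {R : Type} [CommRing R] (g : ℕ) (Λ n : R) (ρ : R)
    (hρ : ρ = 64 * n - Λ ^ (2 * g + 1)) :
    (n ^ g * ρ ^ (g + 1)) ^ 2 - 64 * (n * ρ) ^ (2 * g + 1)
      = -(Λ ^ (2 * g + 1) * n ^ (2 * g) * ρ ^ (2 * g + 1)) := by
  have e1 : (n ^ g * ρ ^ (g + 1)) ^ 2 = n ^ (2 * g) * ρ ^ (2 * g + 1) * ρ := by ring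
  have e2 : 64 * (n * ρ) ^ (2 * g + 1) = n ^ (2 * g) * ρ ^ (2 * g + 1) * (64 * n) := by ring
  rw [e1, e2]
  linear_combination (n ^ (2 * g) * ρ ^ (2 * g + 1)) * hρ

/-- no singular points in a field in which `r`, `Λ`, `n`, `R` are not zero -/
theorem smooth_away {k : Type} [Field k] (g : ℕ) (Λ n R s κ : k)
    (hR : R = 64 * n - Λ ^ (2 * g + 1)) (hr : ((2 * g + 1 : ℕ) : k) ≠ 0) (hΛ : Λ ≠ 0)
    (hn : n ≠ 0) (hR0 : R ≠ 0) (hs : s ^ 2 + 4 * κ = -Λ * (n ^ g * R ^ (g + 1))) (x y : k)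
    (h1 : y ^ 2 + s * y = -Λ * (dickson 1 (n * R) (2 * g + 1)).eval x + κ)
    (h2 : 2 * y + s = 0)
    (h3 : 0 = -Λ * (derivative (dickson 1 (n * R) (2 * g + 1))).eval x) : False := by
  have hd : (derivative (dickson 1 (n * R) (2 * g + 1))).eval x = 0 := by
    rcases mul_eq_zero.1 h3.symm with h | h
    · exact absurd (neg_eq_zero.1 h) hΛ
    · exact h
  have hsq := dick_crit (2 * g + 1) (n * R) x hr hd
  obtain ⟨D, hD⟩ : ∃ D, D = (dickson 1 (n * R) (2 * g + 1)).eval x := ⟨_, rfl⟩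
  rw [← hD] at hsq h1
  have hdisc := disc_id g Λ n R hR
  have hne : Λ ^ (2 * g + 1) * n ^ (2 * g) * R ^ (2 * g + 1) ≠ 0 :=
    mul_ne_zero (mul_ne_zero (pow_ne_zero _ hΛ) (pow_ne_zero _ hn)) (pow_ne_zero _ hR0)
  obtain ⟨T, hT⟩ : ∃ T, T = n ^ g * R ^ (g + 1) := ⟨_, rfl⟩
  rw [← hT] at hs hdisc
  -- `T = - 4 D`
  have h4 : Λ * (T + 4 * D) = 0 := by
    linear_combination hs + 4 * h1 - (2 * y + s) * h2
  have h5 : T = -4 * D := by
    have := (mul_eq_zero.1 h4).resolve_left hΛ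
    linear_combination this
  apply hne
  rw [h5] at hdisc
  linear_combination hdisc - 16 * hsq

theorem curve_natDegree {r : ℕ} (hr : 1 ≤ r) (w n R : 𝓞 F) (h : (w : F) ^ 2 - 4 ≠ 0) :
    (curvePoly r w n R).natDegree = r := by
  obtain ⟨m, rfl⟩ : ∃ m, r = m + 1 := ⟨r - 1, by omega⟩
  unfold curvePoly
  rw [natDegree_C_mul h, natDegree_add_C, (dick_natDegree _ m).2]

/-- good models at the primes which contain none of `r`, `n`, `R` -/
theorem good_away {r : ℕ} (hr : r.Prime) (hr2 : r ≠ 2) {w : 𝓞 F} (hw : IsTrace r w)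
    (n R s κ : 𝓞 F) (hR : R = 64 * n - (4 - w ^ 2) ^ r)
    (hs : s ^ 2 + 4 * κ = -(4 - w ^ 2) * (n ^ ((r - 1) / 2) * R ^ ((r + 1) / 2)))
    (v : Ideal (𝓞 F)) (hv : v.IsPrime) (hrv : (r : 𝓞 F) ∉ v) (hnv : n ∉ v) (hRv : R ∉ v) :
    HasGoodModel (curvePoly r w n R) v := by
  have hodd : r % 2 = 1 := (hr.eq_two_or_odd).resolve_left hr2
  obtain ⟨g, hg⟩ : ∃ g, r = 2 * g + 1 := ⟨(r - 1) / 2, by omega⟩
  have hg1 : (r - 1) / 2 = g := by omega
  have hg2 : (r + 1) / 2 = g + 1 := by omega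
  rw [hg1, hg2] at hs
  have hΛv : 4 - w ^ 2 ∉ v := by
    intro h
    exact hrv (((mem_iff hr hr2 hw hv).1).2 (((mem_iff hr hr2 hw hv).2).1 h))
  have hΛu : -(4 - w ^ 2) ≠ 0 := by
    intro h
    apply hΛv
    rw [neg_eq_zero.1 h]
    exact v.zero_mem
  obtain ⟨D, hD⟩ : ∃ D : (𝓞 F)[X], D = dickson 1 (n * R) r := ⟨_, rfl⟩
  have hDm : D.Monic ∧ D.natDegree = r := by
    rw [hD, hg]
    exact dick_natDegree (n * R) (2 * g)
  have hr1 : 1 ≤ r := hr.one_lt.le
  obtain ⟨P, hP⟩ : ∃ P : (𝓞 F)[X], P = C (-(4 - w ^ 2)) * D + C κ := ⟨_, rfl⟩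
  have hdegCD : (C (-(4 - w ^ 2)) * D).natDegree = r := by
    rw [natDegree_C_mul hΛu, hDm.2]
  have hPdeg : P.natDegree = r := by
    rw [hP, natDegree_add_C, hdegCD]
  have hPlead : P.leadingCoeff = -(4 - w ^ 2) := by
    rw [leadingCoeff, hPdeg, hP, coeff_add, coeff_C_mul, coeff_C_of_ne_zero (by omega), add_zero]
    have : D.coeff r = 1 := by
      have := hDm.1.coeff_natDegree
      rwa [hDm.2] at this
    rw [this, mul_one]
  refine ⟨P, C s, 1, 0, 2, one_ne_zero, two_ne_zero, ?_, ?_, ?_, ?_, ?_⟩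
  · rw [hPdeg, curve_natDegree hr1]
    intro h
    apply hΛu
    apply RingOfIntegers.coe_injective
    show algebraMap (𝓞 F) F (-(4 - w ^ 2)) = algebraMap (𝓞 F) F 0
    rw [map_neg, map_sub, map_pow, map_ofNat, map_zero]
    linear_combination h
  · rw [hPlead]
    intro h
    exact hΛv ((neg_mem_iff).1 h)
  · rw [natDegree_C, hPdeg]
    omega
  · have e0 : (C (1 : F) * X + C 0) = (X : F[X]) := by rw [C_1, C_0]; ring
    have hs' : (s : F) ^ 2 + 4 * (κ : F) = -(4 - (w : F) ^ 2) * ((n : F) ^ g * (R : F) ^ (g + 1)) := by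
      have := congrArg (algebraMap (𝓞 F) F) hs
      simpa only [map_add, map_mul, map_neg, map_sub, map_pow, map_ofNat] using this
    have e1 : (4 * P + C s ^ 2).map (algebraMap (𝓞 F) F)
        = 4 * (C (-(4 - (w : F) ^ 2)) * dickson 1 ((n : F) * R) r + C (κ : F)) + C (s : F) ^ 2 := by
      have e5 : algebraMap (𝓞 F) F (-(4 - w ^ 2)) = -(4 - (w : F) ^ 2) := by
        rw [map_neg, map_sub, map_pow, map_ofNat]
      have e6 : algebraMap (𝓞 F) F (n * R) = (n : F) * R := map_mul _ _ _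
      rw [hP, hD, Polynomial.map_add, Polynomial.map_mul, Polynomial.map_add, Polynomial.map_mul,
        Polynomial.map_pow, map_C, map_C, map_C, map_dickson, e5, e6, Polynomial.map_ofNat]
    have h4 : (C 4 : F[X]) = 4 := map_ofNat C 4
    rw [e0, comp_X, e1, curvePoly, hg1, hg2]
    have e2 : (4 : F[X]) * C (κ : F) + C (s : F) ^ 2
        = C ((w : F) ^ 2 - 4) * (4 * C ((n : F) ^ g * (R : F) ^ (g + 1) / 4)) := by
      rw [← h4, ← C_mul, ← C_pow, ← C_add, ← C_mul, ← C_mul]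
      congr 1
      field_simp
      linear_combination hs'
    have e3 : (C (2 ^ 2 : F) : F[X]) = 4 := by
      rw [← h4]
      congr 1
      norm_num
    rw [e3]
    have e4 : (C (-(4 - (w : F) ^ 2)) : F[X]) = C ((w : F) ^ 2 - 4) := by
      congr 1
      ring
    rw [e4]
    linear_combination e2
  · intro k _ φ hφ x y
    rintro ⟨h1, h2, h3⟩
    have hz : ∀ z : 𝓞 F, z ∉ v → φ z ≠ 0 := by
      intro z hz h
      apply hz
      rw [← hφ]
      exact h
    have hk : ((2 * g + 1 : ℕ) : k) ≠ 0 := by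
      rw [← hg]
      have := hz _ hrv
      rwa [map_natCast] at this
    have e1 : (P.map φ) = C (-φ (4 - w ^ 2)) * dickson 1 (φ n * φ R) (2 * g + 1) + C (φ κ) := by
      rw [hP, hD, hg, Polynomial.map_add, Polynomial.map_mul, map_C, map_C, map_dickson,
        map_mul φ n R, map_neg φ (4 - w ^ 2)]
    apply smooth_away g (φ (4 - w ^ 2)) (φ n) (φ R) (φ s) (φ κ) ?_ hk (hz _ hΛv) (hz _ hnv)
      (hz _ hRv) ?_ x y
    · rw [e1] at h1
      simpa only [map_C, eval_C, eval_add, eval_mul] using h1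
    · simpa only [map_C, eval_C] using h2
    · rw [e1] at h3
      simpa only [map_C, derivative_C, eval_zero, zero_mul, derivative_add, derivative_mul,
        add_zero, zero_add, eval_mul, eval_C] using h3
    · rw [hR, ← hg]
      simp only [map_sub, map_mul, map_pow, map_ofNat]
    · have := congrArg φ hs
      simpa only [map_add, map_mul, map_neg, map_pow, map_ofNat] using this

end H89RF
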