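import Pool.Agent.H89.RF.Dick
import Pool.Agent.H25.ES.Field

/-!
# Units and primes attached to `w = ζ + ζ⁻¹`
-/

namespace H89RF

open NumberField Polynomial

variable {F : Type} [Field F] [NumberField F]

/-- all facts on `w` which are used: `w`, `2 + w` are units, `1 + w` is one for `r ≠ 3`, `Φ` -/
theorem facts {r : ℕ} (hr : r.Prime) (hr2 : r ≠ 2) {w : 𝓞 F} (hw : IsTrace r w) :
    IsUnit w ∧ IsUnit (2 + w) ∧ (r ≠ 3 → IsUnit (1 + w)) ∧ (2 - w) ≠ 0 ∧
    (dickson 1 (1 : 𝓞 F) r).eval w = 2 ∧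
    (∀ (k : Type) [Field k] (φ : 𝓞 F →+* k), φ (2 - w) = 0 → (r : k) = 0) ∧
    ∃ Φ : (𝓞 F)[X], Φ.Monic ∧ Φ.natDegree = (r - 1) / 2 ∧
      C ((2 - w) ^ r) * X * Φ ^ 2 = (dickson 1 (1 : 𝓞 F) r).comp (C (2 - w) * X - 2) + 2 ∧
      ∀ (k : Type) [Field k] (φ : 𝓞 F →+* k), φ (2 - w) = 0 →
        Φ.map φ = X ^ ((r - 1) / 2) - 1 := by
  obtain ⟨ζ, hζ, hw⟩ := hw
  obtain ⟨ι, hι⟩ : ∃ ι : 𝓞 F →+* AlgebraicClosure F,
      ι = (algebraMap F (AlgebraicClosure F)).comp (algebraMap (𝓞 F) F) := ⟨_, rfl⟩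
  have hinj : Function.Injective ι := by
    rw [hι]
    exact (algebraMap F (AlgebraicClosure F)).injective.comp RingOfIntegers.coe_injective
  have hω : ι w = ζ + ζ⁻¹ := by rw [hι]; exact hw
  have hodd : r % 2 = 1 := (hr.eq_two_or_odd).resolve_left hr2
  obtain ⟨g, hg⟩ : ∃ g, g = (r - 1) / 2 := ⟨_, rfl⟩
  have hpg : r = 2 * g + 1 := by omega
  have hr3 : 3 ≤ r := by
    have := hr.two_le
    omega
  have hex := fun k => H25ES.eps_exists w k
  choose ε hε hε2 using hex
  have hunit : ∀ k, ¬ r ∣ k → IsUnit (ε k) := fun k hk =>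
    H25ES.eps_unit ι hinj r ζ w hζ hr hω hk (hε k)
  have hne : (2 - w) ≠ 0 := H25ES.pi_ne ι r ζ w hζ hr hω
  have h2 : IsUnit (2 + w) := by
    have h := hunit 2 (fun h => absurd (Nat.le_of_dvd (by norm_num) h) (by omega))
    have e : ε 2 = 2 + w := by
      apply mul_left_cancel₀ hne
      rw [← hε 2]
      simp only [dickson_two, eval_sub, eval_pow, eval_X, eval_mul, eval_ofNat, C_1, eval_one]
      push_cast
      norm_num
      ring
    rwa [e] at h
  have h4 : IsUnit w := by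
    have h := hunit 4 (fun h => by
      have : r ≤ 4 := Nat.le_of_dvd (by norm_num) h
      have : r = 3 := by omega
      rw [this] at h
      omega)
    have e : ε 4 = w ^ 2 * (2 + w) := by
      apply mul_left_cancel₀ hne
      rw [← hε 4]
      have d0 : (dickson 1 (1 : 𝓞 F) 0).eval w = 2 := by
        rw [dickson_zero]
        simp
        norm_num
      have d1 : (dickson 1 (1 : 𝓞 F) 1).eval w = w := by
        rw [dickson_one]
        simp
      have d2 : (dickson 1 (1 : 𝓞 F) 2).eval w = w * w - 2 := by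
        rw [dickson_add_two, eval_sub, eval_mul, eval_mul, eval_X, eval_C, d1, d0]
        ring
      have d3 : (dickson 1 (1 : 𝓞 F) 3).eval w = w * (w * w - 2) - w := by
        rw [dickson_add_two, eval_sub, eval_mul, eval_mul, eval_X, eval_C, d1, d2]
        ring
      have d4 : (dickson 1 (1 : 𝓞 F) 4).eval w = w * (w * (w * w - 2) - w) - (w * w - 2) := by
        rw [dickson_add_two, eval_sub, eval_mul, eval_mul, eval_X, eval_C, d2, d3]
        ring
      rw [d4]
      ring
    rw [e] at h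
    exact (isUnit_pow_iff two_ne_zero).1 (isUnit_of_mul_isUnit_left h)
  refine ⟨h4, h2, ?_, hne, ?_, ?_, H25ES.phi ε g, ?_, ?_, ?_, ?_⟩
  · intro h3
    have h := hunit 3 (fun h => h3 ((Nat.prime_dvd_prime_iff_eq hr Nat.prime_three).1 h))
    have e : ε 3 = (1 + w) ^ 2 := by
      apply mul_left_cancel₀ hne
      rw [← hε 3]
      have d0 : (dickson 1 (1 : 𝓞 F) 0).eval w = 2 := by
        rw [dickson_zero]
        simp
        norm_num
      have d1 : (dickson 1 (1 : 𝓞 F) 1).eval w = w := by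
        rw [dickson_one]
        simp
      have d2 : (dickson 1 (1 : 𝓞 F) 2).eval w = w * w - 2 := by
        rw [dickson_add_two, eval_sub, eval_mul, eval_mul, eval_X, eval_C, d1, d0]
        ring
      have d3 : (dickson 1 (1 : 𝓞 F) 3).eval w = w * (w * w - 2) - w := by
        rw [dickson_add_two, eval_sub, eval_mul, eval_mul, eval_X, eval_C, d1, d2]
        ring
      rw [d3]
      ring
    rw [e] at h
    exact (isUnit_pow_iff two_ne_zero).1 h
  · have h0 := H25ES.eps_p ι hinj r ζ w hζ hr hω ε hε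
    have := hε r
    rw [h0, mul_zero] at this
    linear_combination -this
  · intro k _ φ h
    exact H25ES.p_zero_of_pi ι hinj r ζ w hζ hr hω ε hε hε2 φ h
  · exact H25ES.phi_monic ε g
  · rw [H25ES.phi_natDegree, hg]
  · exact H25ES.phi_dick ι hinj r g hpg ζ w hζ hr hω ε hε
  · intro k _ φ h
    have h1 := H25ES.phi_map_zero ι hinj r g hpg ζ w hζ hr hω ε hε hε2 φ h
    rw [Polynomial.map_mul, map_X] at h1
    have h3 : (X : k[X]) * (H25ES.phi ε g).map φ = X * (X ^ g - 1) := by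
      rw [h1]
      ring
    rw [← hg]
    exact mul_left_cancel₀ X_ne_zero h3

/-- a prime contains `r` iff it contains `2 - w` iff it contains `4 - w ^ 2` -/
theorem mem_iff {r : ℕ} (hr : r.Prime) (hr2 : r ≠ 2) {w : 𝓞 F} (hw : IsTrace r w)
    {P : Ideal (𝓞 F)} (hP : P.IsPrime) :
    ((r : 𝓞 F) ∈ P ↔ 2 - w ∈ P) ∧ (4 - w ^ 2 ∈ P ↔ 2 - w ∈ P) := by
  obtain ⟨-, h2, -, -, hd, hφ, -⟩ := facts hr hr2 hw
  constructor
  · constructor
    · intro h
      have hr0 : (r : 𝓞 F ⧸ P) = 0 := by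
        have := Ideal.Quotient.eq_zero_iff_mem.2 h
        rwa [map_natCast] at this
      have : Fact r.Prime := ⟨hr⟩
      have hch : CharP (𝓞 F ⧸ P) r := (CharP.charP_iff_prime_eq_zero hr).2 hr0
      obtain ⟨W, hW⟩ : ∃ W, W = Ideal.Quotient.mk P w := ⟨_, rfl⟩
      have h1 : W ^ r = 2 := by
        have h3 := congrArg (Ideal.Quotient.mk P) hd
        rw [← eval₂_at_apply, ← eval_map, map_dickson, map_one, dickson_one_one_charP _ r,
          eval_pow, eval_X, ← hW, map_ofNat] at h3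
        exact h3
      have h4 : (2 : 𝓞 F ⧸ P) ^ r = 2 := by
        have : (2 : 𝓞 F ⧸ P) = 1 + 1 := by norm_num
        rw [this, add_pow_char, one_pow]
      have h5 : (2 - W) ^ r = 0 := by
        rw [sub_pow_char, h4, h1, sub_self]
      have h6 : 2 - W = 0 := eq_zero_of_pow_eq_zero h5
      rw [← Ideal.Quotient.eq_zero_iff_mem, map_sub, map_ofNat, ← hW]
      exact h6
    · intro h
      have : IsDomain (𝓞 F ⧸ P) := Ideal.Quotient.isDomain P
      have h1 := hφ (FractionRing (𝓞 F ⧸ P))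
        ((algebraMap (𝓞 F ⧸ P) (FractionRing (𝓞 F ⧸ P))).comp (Ideal.Quotient.mk P)) (by
          rw [RingHom.comp_apply, Ideal.Quotient.eq_zero_iff_mem.2 h, map_zero])
      rw [← Ideal.Quotient.eq_zero_iff_mem, map_natCast]
      apply IsFractionRing.injective (𝓞 F ⧸ P) (FractionRing (𝓞 F ⧸ P))
      rw [map_natCast, h1, map_zero]
  · have e : 4 - w ^ 2 = (2 - w) * (2 + w) := by ring
    rw [e]
    constructor
    · intro h
      rcases hP.mem_or_mem h with h | h
      · exact h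
      · exact absurd (Ideal.eq_top_of_isUnit_mem P h h2) hP.ne_top
    · intro h
      exact P.mul_mem_right _ h

end H89RF
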