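import Pool.Agent.H89.RF.Params

/-!
# Tools for the choice of the parameters; the case `r = 3`
-/

namespace H89RF

open NumberField Polynomial

theorem expand3 {R : Type} [CommRing R] (x y : R) (n : ℕ) :
    ∃ t : R, (x + y) ^ (n + 2) = x ^ (n + 2) + (n + 2 : ℕ) * x ^ (n + 1) * y
      + ((n + 2).choose 2 : ℕ) * x ^ n * y ^ 2 + y ^ 3 * t := by
  induction n with
  | zero => exact ⟨0, by norm_num; ring⟩
  | succ n ih =>
    obtain ⟨t, ht⟩ := ih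
    have h1 : (n + 1 + 2).choose 2 = (n + 2) + (n + 2).choose 2 := by
      rw [show n + 1 + 2 = (n + 2) + 1 by ring, Nat.choose_succ_succ' (n + 2) 1,
        Nat.choose_one_right]
    refine ⟨(x + y) * t + ((n + 2).choose 2 : ℕ) * x ^ n, ?_⟩
    rw [show n + 1 + 2 = (n + 2) + 1 by ring, pow_succ, ht, ← show n + 1 + 2 = (n + 2) + 1 by ring,
      h1]
    push_cast
    ring

/-- congruence modulo 4 of the right hand side of the square condition -/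
theorem sq_mod_four {R : Type} [CommRing R] (w Λ n R' a : R) (r g : ℕ) (hr : r = 2 * g + 1)
    (hΛ : Λ = 4 - w ^ 2) (hn : (4 : R) ∣ n ^ g - a ^ 2) (hR : R' = 64 * n - Λ ^ r) :
    ∃ s t : R, s ^ 2 + 4 * t = -Λ * (n ^ g * R' ^ (g + 1)) := by
  have h1 : (4 : R) ∣ R' - w ^ (2 * r) := by
    have h2 : (4 : R) ∣ (-Λ) ^ r - (w ^ 2) ^ r := by
      refine Dvd.dvd.trans ?_ (sub_dvd_pow_sub_pow _ _ _)
      rw [hΛ]
      exact ⟨-1, by ring⟩
    obtain ⟨c, hc⟩ := h2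
    have hodd : Odd r := ⟨g, hr⟩
    rw [hodd.neg_pow, ← pow_mul] at hc
    exact ⟨16 * n + c, by rw [hR]; linear_combination hc⟩
  have h2 : (4 : R) ∣ R' ^ (g + 1) - (w ^ (2 * r)) ^ (g + 1) :=
    Dvd.dvd.trans h1 (sub_dvd_pow_sub_pow _ _ _)
  obtain ⟨c1, hc1⟩ := hn
  obtain ⟨c2, hc2⟩ := h2
  refine ⟨w * a * (w ^ r) ^ (g + 1),
    -(n ^ g * R' ^ (g + 1)) + w ^ 2 * (n ^ g * c2 + c1 * (w ^ (2 * r)) ^ (g + 1)), ?_⟩
  have e1 : (w * a * (w ^ r) ^ (g + 1)) ^ 2 = w ^ 2 * (a ^ 2 * (w ^ (2 * r)) ^ (g + 1)) := by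
    have : (w ^ r) ^ (g + 1) * (w ^ r) ^ (g + 1) = (w ^ (2 * r)) ^ (g + 1) := by
      rw [← mul_pow, ← pow_add, two_mul]
    linear_combination (w ^ 2 * a ^ 2) * this
  rw [e1, hΛ]
  linear_combination (-(w ^ 2 * (w ^ (2 * r)) ^ (g + 1))) * hc1 - (w ^ 2 * n ^ g) * hc2

variable {F : Type} [Field F] [NumberField F]

theorem exists_prime_over (F : Type) [Field F] [NumberField F] {p : ℕ} (hp : p.Prime) :
    ∃ Q : Ideal (𝓞 F), Q.IsPrime ∧ (p : 𝓞 F) ∈ Q := by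
  have hmax : (Ideal.span {(p : ℤ)}).IsMaximal := by
    have h3 : Prime (p : ℤ) := Nat.prime_iff_prime_int.1 hp
    exact ((Ideal.span_singleton_prime h3.ne_zero).mpr h3).isMaximal (by simp [hp.ne_zero])
  obtain ⟨Q, hQm, hQ⟩ := Ideal.exists_maximal_ideal_liesOver_of_isIntegral
    (S := 𝓞 F) (Ideal.span {(p : ℤ)})
  refine ⟨Q, hQm.isPrime, ?_⟩
  have h1 : (p : ℤ) ∈ Q.under ℤ := by
    rw [← hQ.over]
    exact Ideal.mem_span_singleton_self _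
  rw [Ideal.under_def, Ideal.mem_comap] at h1
  simpa using h1

theorem sub_ne_of (r : ℕ) {Λ k : 𝓞 F} (C0 : 𝓞 F)
    (hk : ∀ Q : Ideal (𝓞 F), Q.IsPrime → (2 : 𝓞 F) ∈ Q → k ∉ Q)
    (hΛ : ∀ Q : Ideal (𝓞 F), Q.IsPrime → (2 : 𝓞 F) ∈ Q → Λ ∉ Q) :
    64 * C0 ^ 2 - k ^ 2 * Λ ^ r ≠ 0 := by
  intro h
  obtain ⟨Q, hQ, h2⟩ := exists_prime_over F Nat.prime_two
  have h2' : (2 : 𝓞 F) ∈ Q := by exact_mod_cast h2
  have h3 : k ^ 2 * Λ ^ r ∈ Q := by
    have e : k ^ 2 * Λ ^ r = 2 * (32 * C0 ^ 2) := by linear_combination -h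
    rw [e]
    exact Q.mul_mem_right _ h2'
  rcases hQ.mem_or_mem h3 with h4 | h4
  · exact hk Q hQ h2' (hQ.mem_of_pow_mem 2 h4)
  · exact hΛ Q hQ h2' (hQ.mem_of_pow_mem r h4)

/-- an odd number which is contained in all odd primes containing `z` -/
theorem exists_odd {z : 𝓞 F} (hz : z ≠ 0) : ∃ n : ℕ, n % 2 = 1 ∧ ∀ P : Ideal (𝓞 F), P.IsPrime →
    (2 : 𝓞 F) ∉ P → z ∈ P → (n : 𝓞 F) ∈ P := by
  have hc0 : (Algebra.norm ℤ z).natAbs ≠ 0 :=
    Int.natAbs_ne_zero.2 (Algebra.norm_ne_zero_iff.2 hz)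
  obtain ⟨e, n, hn, hen⟩ := Nat.exists_eq_two_pow_mul_odd hc0
  refine ⟨n, Nat.odd_iff.1 hn, ?_⟩
  intro P hP h2 hzP
  have h1 := norm_mem hzP
  rw [hen] at h1
  push_cast at h1
  rcases hP.mem_or_mem h1 with h | h
  · exact absurd (hP.mem_of_pow_mem _ h) h2
  · exact h

theorem one_notMem {P : Ideal (𝓞 F)} (hP : P.IsPrime) {x y n : 𝓞 F} (hn : n ∈ P) (hx : x ∈ P)
    (h : x = 1 + n * y) : False := by
  apply hP.ne_top
  rw [Ideal.eq_top_iff_one]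
  have : (1 : 𝓞 F) = x - n * y := by rw [h]; ring
  rw [this]
  exact P.sub_mem hx (P.mul_mem_right _ hn)

/-- the case `r = 3` -/
theorem good_three {w : 𝓞 F} (hw : IsTrace 3 w) : Good 3 (4 - w ^ 2) := by
  obtain ⟨-, -, -, hne, hd, -, -⟩ := facts Nat.prime_three (by norm_num) hw
  have d3 : (dickson 1 (1 : 𝓞 F) 3).eval w = w ^ 3 - 3 * w := by
    rw [dickson_add_two, dickson_add_two, dickson_one, dickson_zero]
    simp
    ring
  have hw1 : w = -1 := by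
    rw [d3] at hd
    have h1 : (w + 1) ^ 2 * (2 - w) = 0 := by linear_combination (-1 : 𝓞 F) * hd
    have h2 := (mul_eq_zero.1 h1).resolve_right hne
    have h3 := pow_eq_zero_iff two_ne_zero |>.1 h2
    linear_combination h3
  have hΛ : 4 - w ^ 2 = 3 := by rw [hw1]; norm_num
  rw [hΛ]
  have hev : ∀ x : 𝓞 F, (C 8400 * X ^ 2 + C 1440 * X + C 61 : (𝓞 F)[X]).eval x
      = 8400 * x ^ 2 + 1440 * x + 61 := by
    intro x
    simp
  have heS : ∀ x : 𝓞 F, (C 6 + C 70 * X : (𝓞 F)[X]).eval x = 6 + 70 * x := by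
    intro x
    simp
  refine mk_params 3 3 (C 8400 * X ^ 2 + C 1440 * X + C 61) (C 6 + C 70 * X) 7 2 (-5) 6 70 rfl
    (by norm_num) (by norm_num) (by norm_num) ?_ (by norm_num) (by norm_num) (by norm_num)
    (by norm_num) (by norm_num) ?_ ?_ ?_ ?_ ?_
  · have c (m : ℕ) [m.AtLeastTwo] : (C (OfNat.ofNat m) : (𝓞 F)[X]) = OfNat.ofNat m := map_ofNat C m
    simp only [c, C_neg, C_mul]
    ring
  · intro P hP h2 x h
    rw [hev, heS] at h
    apply one_notMem hP h2 h (y := (8400 * x ^ 2 + 1440 * x + 60)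
      + (4200 * x ^ 2 + 720 * x + 30) * (8400 * x ^ 2 + 1440 * x + 60) + 6 * (3 + 35 * x) ^ 2)
    ring
  · intro P hP h3 x h
    rw [hev, heS] at h
    have h3' : (3 : 𝓞 F) ∈ P := by exact_mod_cast h3
    apply one_notMem hP h3' h (y := 2 * (2800 * x ^ 2 + 480 * x + 20)
      + 3 * (2800 * x ^ 2 + 480 * x + 20) ^ 2 + (6 + 70 * x) ^ 2)
    ring
  · intro P hP x hA hS _
    rw [hev] at hA
    rw [heS] at hS
    have h5 : (5 : 𝓞 F) ∈ P := by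
      have e : (5 : 𝓞 F) = 12 * (6 + 70 * x) * (6 + 70 * x)
          - 7 * (8400 * x ^ 2 + 1440 * x + 61) := by ring
      rw [e]
      exact P.sub_mem (P.mul_mem_left _ hS) (P.mul_mem_left _ hA)
    exact one_notMem hP h5 hS (y := 1 + 14 * x) (by ring)
  · intro P _ h
    exact Or.inl h
  · intro x
    rw [hev, heS]
    obtain ⟨a, ha⟩ : ∃ a, a = 8400 * x ^ 2 + 1440 * x + 61 := ⟨_, rfl⟩
    rw [← ha]
    apply sq_mod_four (-1) 3 _ _ a 3 1 rfl (by norm_num) _ rfl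
    exact ⟨3 * (3 + 35 * x) ^ 2, by ring⟩

end H89RF
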