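import Pool.Agent.H89.RF.Case

/-!
# The parameters for `r = 3 mod 4`, `r ≠ 3`
-/

namespace H89RF

open NumberField Polynomial

variable {F : Type} [Field F] [NumberField F]

/-- `C0` for `r = 2 g + 1`, `r + 1 = 4 j` -/
theorem exists_C0 {R : Type} [CommRing R] (w : R) (r m j : ℕ) (hr : r = m + 2) (hj : r + 1 = 4 * j)
    (hodd : Odd r) : ∃ t : R, -(4 - w ^ 2) ^ r - (w ^ r) ^ 2 - (2 * w ^ (m + 1)) ^ 2
      = 16 * (-(j : R) * w ^ (2 * m + 2) + (r.choose 2 : ℕ) * w ^ (2 * m) - 4 * t) := by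
  obtain ⟨t, ht⟩ := expand3 (w ^ 2) (-4) m
  rw [← hr] at ht
  refine ⟨t, ?_⟩
  have e : -(4 - w ^ 2) ^ r = (w ^ 2 + -4) ^ r := by
    rw [← hodd.neg_pow]
    congr 1
    ring
  have hjR : (r : R) + 1 = 4 * (j : R) := by exact_mod_cast congrArg (Nat.cast : ℕ → R) hj
  have e1 : (w ^ r) ^ 2 = (w ^ 2) ^ r := by rw [← pow_mul, ← pow_mul, mul_comm]
  have e2 : (2 * w ^ (m + 1)) ^ 2 = 4 * (w ^ 2) ^ (m + 1) := by ring
  have e3 : w ^ (2 * m + 2) = (w ^ 2) ^ (m + 1) := by ring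
  have e4 : w ^ (2 * m) = (w ^ 2) ^ m := by rw [pow_mul]
  rw [e, ht, e1, e2, e3, e4]
  linear_combination (-4 * (w ^ 2) ^ (m + 1)) * hjR

theorem good_A {r : ℕ} (hr : r.Prime) (hr3 : r ≠ 3) (hr4 : r % 4 = 3) {w : 𝓞 F}
    (hw : IsTrace r w) : Good r (4 - w ^ 2) := by
  have hr2 : r ≠ 2 := by omega
  obtain ⟨hu, hu2, hu1, hne, hd, -, -⟩ := facts hr hr2 hw
  have hu1 := hu1 hr3
  obtain ⟨m, hm⟩ : ∃ m, r = m + 2 := ⟨r - 2, by omega⟩
  obtain ⟨j, hj⟩ : ∃ j, r + 1 = 4 * j := ⟨(r + 1) / 4, by omega⟩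
  obtain ⟨g, hg⟩ : ∃ g, r = 2 * g + 1 := ⟨(r - 1) / 2, by omega⟩
  have hg1 : (r - 1) / 2 = g := by omega
  have hg2 : (r + 1) / 2 = g + 1 := by omega
  have hodd : Odd r := ⟨g, hg⟩
  obtain ⟨t, ht⟩ := exists_C0 w r m j hm hj hodd
  obtain ⟨wi, hwi⟩ := hu.exists_right_inv
  obtain ⟨C0, hC0⟩ : ∃ C0 : 𝓞 F,
      C0 = -(j : 𝓞 F) * w ^ (2 * m + 2) + (r.choose 2 : ℕ) * w ^ (2 * m) - 4 * t := ⟨_, rfl⟩
  rw [← hC0] at ht
  have hΛ0 : 4 - w ^ 2 ≠ 0 := by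
    intro h
    have h1 : (2 - w) * (2 + w) = 0 := by linear_combination h
    exact hne ((mul_eq_zero.1 h1).resolve_right hu2.ne_zero)
  have hwP : ∀ P : Ideal (𝓞 F), P.IsPrime → ∀ n : ℕ, w ^ n ∉ P := fun P hP n h =>
    hP.ne_top (Ideal.eq_top_of_isUnit_mem P (hP.mem_of_pow_mem n h) hu)
  -- `C0` is not in the primes above 2
  have hC2 : ∀ P : Ideal (𝓞 F), P.IsPrime → (2 : 𝓞 F) ∈ P → C0 ∉ P := by
    intro P hP h2 h
    obtain ⟨c, hc⟩ : ∃ c, r.choose 2 = 2 * c + 1 := by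
      have h1 : r.choose 2 = g * (2 * g + 1) := by
        rw [Nat.choose_two_right, hg, Nat.add_sub_cancel]
        have : (2 * g + 1) * (2 * g) = g * (2 * g + 1) * 2 := by ring
        rw [this, Nat.mul_div_cancel _ (by norm_num)]
      have h2 : g % 2 = 1 := by omega
      have h3 : (g * (2 * g + 1)) % 2 = 1 := by
        rw [Nat.mul_mod, h2]
        have : (2 * g + 1) % 2 = 1 := by omega
        rw [this]
      exact ⟨(g * (2 * g + 1)) / 2, by omega⟩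
    have h1 : w ^ (2 * m) * ((j : 𝓞 F) * w ^ 2 + 1) ∈ P := by
      have e : w ^ (2 * m) * ((j : 𝓞 F) * w ^ 2 + 1)
          = C0 + 2 * ((j : 𝓞 F) * w ^ (2 * m + 2) - c * w ^ (2 * m) + 2 * t) := by
        rw [hC0, hc]
        push_cast
        ring
      rw [e]
      exact P.add_mem h (P.mul_mem_right _ h2)
    have h3 := (hP.mem_or_mem h1).resolve_left (hwP P hP _)
    rcases Nat.even_or_odd' j with ⟨i, hi | hi⟩
    · apply one_notMem hP h2 h3 (y := (i : 𝓞 F) * w ^ 2)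
      rw [hi]
      push_cast
      ring
    · have h4 : (1 + w) ^ 2 ∈ P := by
        have e : (1 + w) ^ 2 = ((j : 𝓞 F) * w ^ 2 + 1) + 2 * (w - i * w ^ 2) := by
          rw [hi]
          push_cast
          ring
        rw [e]
        exact P.add_mem h3 (P.mul_mem_right _ h2)
      exact hP.ne_top (Ideal.eq_top_of_isUnit_mem P (hP.mem_of_pow_mem 2 h4) hu1)
  have hC00 : C0 ≠ 0 := by
    intro h
    obtain ⟨Q, hQ, h2Q⟩ := exists_prime_over F Nat.prime_two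
    apply hC2 Q hQ (by exact_mod_cast h2Q)
    rw [h]
    exact Q.zero_mem
  obtain ⟨n1, hn1, hn1P⟩ := exists_odd hC00
  obtain ⟨h', hh⟩ : ∃ h', n1 + 1 = 2 * h' := ⟨(n1 + 1) / 2, by omega⟩
  have hhR : (n1 : 𝓞 F) + 1 = 2 * h' := by exact_mod_cast congrArg (Nat.cast : ℕ → 𝓞 F) hh
  obtain ⟨S, hS⟩ : ∃ S : (𝓞 F)[X], S = C ((n1 : 𝓞 F) + 1) + C (2 * (n1 : 𝓞 F)) * X := ⟨_, rfl⟩
  have hSx : ∀ x, S.eval x = (n1 : 𝓞 F) + 1 + 2 * n1 * x := by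
    intro x
    rw [hS]
    simp only [eval_add, eval_mul, eval_C, eval_X]
  have hS2 : ∀ x, S.eval x = 2 * ((h' : 𝓞 F) + n1 * x) := by
    intro x
    rw [hSx, hhR]
    ring
  obtain ⟨A, hA⟩ : ∃ A : (𝓞 F)[X], A = C (wi ^ r) * (C (4 * (4 - w ^ 2)) * S ^ 2 + C C0) :=
    ⟨_, rfl⟩
  have hwr : w ^ r * wi ^ r = 1 := by rw [← mul_pow, hwi, one_pow]
  have hkA : C (w ^ r) * A = C (4 * (4 - w ^ 2)) * S ^ 2 + C C0 := by
    rw [hA, ← mul_assoc, ← C_mul, hwr, C_1, one_mul]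
  have hAx : ∀ x, w ^ r * A.eval x = 4 * (4 - w ^ 2) * S.eval x ^ 2 + C0 := by
    intro x
    have := congrArg (fun f : (𝓞 F)[X] => f.eval x) hkA
    simpa only [eval_add, eval_mul, eval_pow, eval_C] using this
  have hC0A : ∀ P : Ideal (𝓞 F), P.IsPrime → ∀ x, A.eval x ∈ P → (4 - w ^ 2) * S.eval x ^ 2 ∈ P →
      C0 ∈ P := by
    intro P hP x h1 h2
    have e : C0 = w ^ r * A.eval x - 4 * ((4 - w ^ 2) * S.eval x ^ 2) := by
      linear_combination -hAx x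
    rw [e]
    exact P.sub_mem (P.mul_mem_left _ h1) (P.mul_mem_left _ h2)
  have hNA : ∀ P : Ideal (𝓞 F), P.IsPrime → ∀ x, A.eval x ^ 2 + (4 - w ^ 2) * S.eval x ^ 2 ∈ P →
      (4 - w ^ 2) * S.eval x ^ 2 ∈ P → A.eval x ∈ P := by
    intro P hP x h1 h2
    apply hP.mem_of_pow_mem 2
    have e : A.eval x ^ 2 = (A.eval x ^ 2 + (4 - w ^ 2) * S.eval x ^ 2)
        - (4 - w ^ 2) * S.eval x ^ 2 := by ring
    rw [e]
    exact P.sub_mem h1 h2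
  have hrr : ∀ P : Ideal (𝓞 F), P.IsPrime → (r : 𝓞 F) ∈ P → (4 - w ^ 2 ∈ P ∧ (2 : 𝓞 F) ∉ P) := by
    intro P hP h
    exact ⟨((mem_iff hr hr2 hw hP).2).2 (((mem_iff hr hr2 hw hP).1).1 h),
      two_notMem hr hr2 hP h⟩
  have hkey : ∀ P : Ideal (𝓞 F), P.IsPrime → (r : 𝓞 F) ∈ P → w ^ 2 + 4 ∉ P := by
    intro P hP h h1
    obtain ⟨h2, h3⟩ := hrr P hP h
    apply h3
    apply hP.mem_of_pow_mem 3
    have e : (2 : 𝓞 F) ^ 3 = (w ^ 2 + 4) + (4 - w ^ 2) := by ring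
    rw [e]
    exact P.add_mem h1 h2
  refine mk_params r (4 - w ^ 2) A S (w ^ r) (2 * w ^ (m + 1)) C0 ((n1 : 𝓞 F) + 1)
    (2 * (n1 : 𝓞 F)) hS ?_ hΛ0 (pow_ne_zero _ hu.ne_zero) hkA ht.symm ?_ hC00
    (mul_ne_zero (by norm_num) (pow_ne_zero _ hu.ne_zero))
    (sub_ne_of r C0 (fun Q hQ _ => hwP Q hQ _) (fun Q hQ h2 h => (hrr Q hQ
      (((mem_iff hr hr2 hw hQ).1).2 (((mem_iff hr hr2 hw hQ).2).1 h))).2 h2)) ?_ ?_ ?_ ?_ ?_
  · have : (n1 : 𝓞 F) ≠ 0 := by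
      have : n1 ≠ 0 := by omega
      exact_mod_cast this
    exact mul_ne_zero (by norm_num) this
  · intro h
    obtain ⟨Q, hQ, hrQ⟩ := exists_prime_over F hr
    obtain ⟨h1, h2⟩ := hrr Q hQ hrQ
    have h3 : (2 * w ^ (m + 1)) ^ 2 ∈ Q := by
      have e : (2 * w ^ (m + 1)) ^ 2 = -((4 - w ^ 2) ^ r) := by linear_combination h
      rw [e]
      exact Q.neg_mem (Q.pow_mem_of_mem h1 r hr.pos)
    rcases hQ.mem_or_mem (hQ.mem_of_pow_mem 2 h3) with h4 | h4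
    · exact h2 h4
    · exact hwP Q hQ _ h4
  · intro P hP h2 x h
    have h1 : (4 - w ^ 2) * S.eval x ^ 2 ∈ P := by
      rw [hS2]
      apply P.mul_mem_left
      apply P.pow_mem_of_mem _ 2 (by norm_num)
      exact P.mul_mem_right _ h2
    exact hC2 P hP h2 (hC0A P hP x (hNA P hP x h h1) h1)
  · intro P hP h3 x h
    obtain ⟨h1, h2⟩ := hrr P hP h3
    have h4 : (4 - w ^ 2) * S.eval x ^ 2 ∈ P := P.mul_mem_right _ h1
    have h5 := hC0A P hP x (hNA P hP x h h4) h4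
    have h6 : w ^ (2 * m + 2) * (w ^ 2 + 4) ∈ P := by
      have e : w ^ (2 * m + 2) * (w ^ 2 + 4) = -(16 * C0) - (4 - w ^ 2) ^ r := by
        rw [← ht, hm]
        ring
      rw [e]
      exact P.sub_mem (P.neg_mem (P.mul_mem_left _ h5)) (P.pow_mem_of_mem h1 r hr.pos)
    exact hkey P hP h3 ((hP.mem_or_mem h6).resolve_left (hwP P hP _))
  · intro P hP x hA hS' _
    have h1 : (4 - w ^ 2) * S.eval x ^ 2 ∈ P :=
      P.mul_mem_left _ (P.pow_mem_of_mem hS' 2 (by norm_num))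
    have h5 := hC0A P hP x hA h1
    by_cases h2 : (2 : 𝓞 F) ∈ P
    · exact hC2 P hP h2 h5
    · apply one_notMem hP (hn1P P hP h2 h5) hS' (y := 1 + 2 * x)
      rw [hSx]
      ring
  · intro P hP h
    rcases hP.mem_or_mem h with h | h
    · exact Or.inl h
    · exact absurd h (hwP P hP _)
  · intro x
    rw [hg1, hg2]
    apply sq_mod_four w (4 - w ^ 2) _ _ (A.eval x ^ g) r g hg rfl _ rfl
    have e : (A.eval x ^ g) ^ 2 = (A.eval x ^ 2) ^ g := by rw [← pow_mul, ← pow_mul, mul_comm]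
    rw [e]
    refine Dvd.dvd.trans ?_ (sub_dvd_pow_sub_pow _ _ _)
    exact ⟨(4 - w ^ 2) * ((h' : 𝓞 F) + n1 * x) ^ 2, by rw [hS2]; ring⟩

end H89RF
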