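import Pool.Agent.H89.RF.CaseA

/-!
# The parameters for `r = 1 mod 4`
-/

namespace H89RF

open NumberField Polynomial

variable {F : Type} [Field F] [NumberField F]

/-- `C1` for `r = m + 4`, `r = 4 i + 1` -/
theorem exists_C1 {R : Type} [CommRing R] (w : R) (r m i : ℕ) (hr : r = m + 4)
    (hi : r = 4 * i + 1) (hodd : Odd (m + 2)) :
    ∃ t : R, -((4 - w ^ 2) ^ (m + 2) + w ^ (2 * m + 2) * (w ^ 2 + 4))
      = 16 * (t - (i : R) * w ^ (2 * m + 2)) := by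
  obtain ⟨t, ht⟩ := expand3 (w ^ 2) (-4) m
  refine ⟨((m + 2).choose 2 : ℕ) * w ^ (2 * m) - 4 * t, ?_⟩
  have e : (4 - w ^ 2) ^ (m + 2) = -(w ^ 2 + -4) ^ (m + 2) := by
    rw [← hodd.neg_pow]
    congr 1
    ring
  have hiR : (m : R) + 4 = 4 * (i : R) + 1 := by
    have h : m + 4 = 4 * i + 1 := by omega
    exact_mod_cast congrArg (Nat.cast : ℕ → R) h
  have e4 : w ^ (2 * m) = (w ^ 2) ^ m := by rw [pow_mul]
  have e3 : w ^ (2 * m + 2) = (w ^ 2) ^ (m + 1) := by ring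
  rw [e, ht, e3, e4]
  push_cast
  linear_combination (-4 * (w ^ 2) ^ (m + 1)) * hiR

theorem good_B {r : ℕ} (hr : r.Prime) (hr4 : r % 4 = 1) {w : 𝓞 F}
    (hw : IsTrace r w) : Good r (4 - w ^ 2) := by
  have hr2 : r ≠ 2 := by omega
  obtain ⟨hu, hu2, -, hne, hd, -, -⟩ := facts hr hr2 hw
  have hr5 : 5 ≤ r := by
    have := hr.two_le
    omega
  obtain ⟨m, hm⟩ : ∃ m, r = m + 4 := ⟨r - 4, by omega⟩
  obtain ⟨i, hi⟩ : ∃ i, r = 4 * i + 1 := ⟨(r - 1) / 4, by omega⟩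
  obtain ⟨g, hg⟩ : ∃ g, r = 2 * g + 1 := ⟨(r - 1) / 2, by omega⟩
  obtain ⟨g', hg'⟩ : ∃ g', g = 2 * g' := ⟨g / 2, by omega⟩
  have hg1 : (r - 1) / 2 = g := by omega
  have hg2 : (r + 1) / 2 = g + 1 := by omega
  obtain ⟨t, ht⟩ := exists_C1 w r m i hm hi (Nat.odd_iff.2 (by omega))
  obtain ⟨wi, hwi⟩ := hu.exists_right_inv
  obtain ⟨C1, hC1⟩ : ∃ C1 : 𝓞 F, C1 = t - (i : 𝓞 F) * w ^ (2 * m + 2) := ⟨_, rfl⟩
  rw [← hC1] at ht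
  obtain ⟨Λ, hΛ⟩ : ∃ Λ, Λ = 4 - w ^ 2 := ⟨_, rfl⟩
  have hΛ0 : Λ ≠ 0 := by
    intro h
    have h1 : (2 - w) * (2 + w) = 0 := by rw [← h, hΛ]; ring
    exact hne ((mul_eq_zero.1 h1).resolve_right hu2.ne_zero)
  have hwP : ∀ P : Ideal (𝓞 F), P.IsPrime → ∀ n : ℕ, w ^ n ∉ P := fun P hP n h =>
    hP.ne_top (Ideal.eq_top_of_isUnit_mem P (hP.mem_of_pow_mem n h) hu)
  have hrr : ∀ P : Ideal (𝓞 F), P.IsPrime → (r : 𝓞 F) ∈ P → (Λ ∈ P ∧ (2 : 𝓞 F) ∉ P) := by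
    intro P hP h
    rw [hΛ]
    exact ⟨((mem_iff hr hr2 hw hP).2).2 (((mem_iff hr hr2 hw hP).1).1 h),
      two_notMem hr hr2 hP h⟩
  have hΛr : ∀ P : Ideal (𝓞 F), P.IsPrime → Λ ∈ P → (r : 𝓞 F) ∈ P := by
    intro P hP h
    rw [hΛ] at h
    exact ((mem_iff hr hr2 hw hP).1).2 (((mem_iff hr hr2 hw hP).2).1 h)
  have hkey : ∀ P : Ideal (𝓞 F), P.IsPrime → (r : 𝓞 F) ∈ P → w ^ 2 + 4 ∉ P := by
    intro P hP h h1
    obtain ⟨h2, h3⟩ := hrr P hP h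
    apply h3
    apply hP.mem_of_pow_mem 3
    have e : (2 : 𝓞 F) ^ 3 = (w ^ 2 + 4) + Λ := by rw [hΛ]; ring
    rw [e]
    exact P.add_mem h1 h2
  have hC10 : C1 ≠ 0 := by
    intro h
    rw [h, mul_zero, ← hΛ] at ht
    obtain ⟨Q, hQ, hrQ⟩ := exists_prime_over F hr
    obtain ⟨h1, h2⟩ := hrr Q hQ hrQ
    have h6 : w ^ (2 * m + 2) * (w ^ 2 + 4) ∈ Q := by
      have e : w ^ (2 * m + 2) * (w ^ 2 + 4) = -Λ ^ (m + 2) := by linear_combination -ht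
      rw [e]
      exact Q.neg_mem (Q.pow_mem_of_mem h1 _ (by omega))
    exact hkey Q hQ hrQ ((hQ.mem_or_mem h6).resolve_left (hwP Q hQ _))
  obtain ⟨n1, hn1, hn1P⟩ := exists_odd hC10
  -- the polynomials
  obtain ⟨A0, hA0⟩ : ∃ A0 : 𝓞 F, A0 = wi ^ (m + 2) * (Λ * C1) := ⟨_, rfl⟩
  obtain ⟨σ, hσ⟩ : ∃ σ : 𝓞 F, σ = wi * (1 - A0) := ⟨_, rfl⟩
  have hwσ : w * σ = 1 - A0 := by rw [hσ, ← mul_assoc, hwi, one_mul]
  obtain ⟨q, hq⟩ : ∃ q : ℕ, q = n1 * r := ⟨_, rfl⟩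
  have hq2 : q % 2 = 1 := by
    rw [hq, Nat.mul_mod, hn1]
    have : r % 2 = 1 := by omega
    rw [this]
  obtain ⟨c, hc⟩ : ∃ c, q = 2 * c + 1 := ⟨q / 2, by omega⟩
  obtain ⟨s0, hs0⟩ : ∃ s0 : 𝓞 F, s0 = 1 + (q : 𝓞 F) * (σ - 1) := ⟨_, rfl⟩
  obtain ⟨S, hS⟩ : ∃ S : (𝓞 F)[X], S = C s0 + C (2 * (q : 𝓞 F)) * X := ⟨_, rfl⟩
  have hSx : ∀ x, S.eval x = 1 + (q : 𝓞 F) * (σ - 1 + 2 * x) := by
    intro x
    rw [hS, hs0]
    simp only [eval_add, eval_mul, eval_C, eval_X]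
    ring
  have hSσ : ∀ x, S.eval x = σ + 2 * ((c : 𝓞 F) * (σ - 1) + q * x) := by
    intro x
    have : (q : 𝓞 F) = 2 * c + 1 := by exact_mod_cast congrArg (Nat.cast : ℕ → 𝓞 F) hc
    rw [hSx, this]
    ring
  have hSn : ∀ P : Ideal (𝓞 F), P.IsPrime → (n1 : 𝓞 F) ∈ P → ∀ x, S.eval x ∉ P := by
    intro P hP h x h1
    apply one_notMem hP h h1 (y := (r : 𝓞 F) * (σ - 1 + 2 * x))
    rw [hSx, hq]
    push_cast
    ring
  have hSr : ∀ P : Ideal (𝓞 F), P.IsPrime → (r : 𝓞 F) ∈ P → ∀ x, S.eval x ∉ P := by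
    intro P hP h x h1
    apply one_notMem hP h h1 (y := (n1 : 𝓞 F) * (σ - 1 + 2 * x))
    rw [hSx, hq]
    push_cast
    ring
  obtain ⟨A, hA⟩ : ∃ A : (𝓞 F)[X], A = C (wi ^ (m + 2)) * (C 4 * S ^ 2 + C (Λ * C1)) := ⟨_, rfl⟩
  have hwr : w ^ (m + 2) * wi ^ (m + 2) = 1 := by rw [← mul_pow, hwi, one_pow]
  have hAx : ∀ x, A.eval x = wi ^ (m + 2) * (4 * S.eval x ^ 2 + Λ * C1) := by
    intro x
    rw [hA]
    simp only [eval_add, eval_mul, eval_pow, eval_C]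
  have hAx' : ∀ x, w ^ (m + 2) * A.eval x = 4 * S.eval x ^ 2 + Λ * C1 := by
    intro x
    rw [hAx, ← mul_assoc, hwr, one_mul]
  have hkA : C (w ^ (m + 2) * Λ) * A = C (4 * Λ) * S ^ 2 + C (Λ ^ 2 * C1) := by
    have h1 : C (w ^ (m + 2)) * A = C 4 * S ^ 2 + C (Λ * C1) := by
      rw [hA, ← mul_assoc, ← C_mul, hwr, C_1, one_mul]
    have e1 : (C (4 * Λ) : (𝓞 F)[X]) = C Λ * C 4 := by rw [← C_mul]; congr 1; ring
    have e2 : (C (Λ ^ 2 * C1) : (𝓞 F)[X]) = C Λ * C (Λ * C1) := by rw [← C_mul]; congr 1; ring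
    rw [C_mul, e1, e2]
    linear_combination C Λ * h1
  have h16 : 16 * (Λ ^ 2 * C1) = -Λ ^ r - (w ^ (m + 2) * Λ) ^ 2 - (2 * w ^ (m + 1) * Λ) ^ 2 := by
    have e1 : Λ ^ r = Λ ^ 2 * Λ ^ (m + 2) := by rw [← pow_add, hm]; congr 1; ring
    rw [← hΛ] at ht
    rw [e1]
    linear_combination (-(Λ ^ 2)) * ht
  -- the primes above 2
  have hN2 : ∀ P : Ideal (𝓞 F), P.IsPrime → (2 : 𝓞 F) ∈ P → ∀ x,
      A.eval x ^ 2 + Λ * S.eval x ^ 2 ∉ P := by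
    intro P hP h2 x h
    obtain ⟨a, ha⟩ : ∃ a, a = 2 * (wi ^ (m + 2) * S.eval x ^ 2) := ⟨_, rfl⟩
    have hAa : A.eval x = A0 + 2 * a := by rw [hAx, hA0, ha]; ring
    obtain ⟨b, hb⟩ : ∃ b, b = (c : 𝓞 F) * (σ - 1) + q * x := ⟨_, rfl⟩
    have hSb : S.eval x = σ + 2 * b := by rw [hSσ, hb]
    apply one_notMem hP h2 h (y := -A0 + A0 ^ 2 + 2 * A0 * a + 2 * a ^ 2 + 2 * (S.eval x) ^ 2
      - w ^ 2 * (S.eval x) ^ 2 + w ^ 2 * (2 * σ * b + 2 * b ^ 2))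
    have h5 : w ^ 2 * σ ^ 2 = (1 - A0) ^ 2 := by rw [← hwσ]; ring
    rw [hAa, hΛ, hSb]
    linear_combination h5
  refine mk_params r (4 - w ^ 2) A S (w ^ (m + 2) * Λ) (2 * w ^ (m + 1) * Λ) (Λ ^ 2 * C1) s0
    (2 * (q : 𝓞 F)) hS ?_ ?_ ?_ ?_ ?_ ?_ ?_ ?_ ?_ ?_ ?_ ?_ ?_ ?_
  · have : (q : 𝓞 F) ≠ 0 := by
      have : q ≠ 0 := by omega
      exact_mod_cast this
    exact mul_ne_zero (by norm_num) this
  · rw [← hΛ]; exact hΛ0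
  · exact mul_ne_zero (pow_ne_zero _ hu.ne_zero) hΛ0
  · rw [← hΛ]; exact hkA
  · rw [← hΛ]; exact h16
  · rw [← hΛ]
    intro h
    have e1 : Λ ^ r = Λ ^ 2 * Λ ^ (m + 2) := by rw [← pow_add, hm]; congr 1; ring
    have h1 : Λ ^ 2 * (Λ ^ (m + 2) + 4 * w ^ (2 * m + 2)) = 0 := by
      rw [← h, e1]
      ring
    have h2 := (mul_eq_zero.1 h1).resolve_left (pow_ne_zero _ hΛ0)
    obtain ⟨Q, hQ, hrQ⟩ := exists_prime_over F hr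
    obtain ⟨h3, h4⟩ := hrr Q hQ hrQ
    have h5 : 4 * w ^ (2 * m + 2) ∈ Q := by
      have e : 4 * w ^ (2 * m + 2) = -Λ ^ (m + 2) := by linear_combination h2
      rw [e]
      exact Q.neg_mem (Q.pow_mem_of_mem h3 _ (by omega))
    rcases hQ.mem_or_mem h5 with h6 | h6
    · apply h4
      apply hQ.mem_of_pow_mem 2
      have : (2 : 𝓞 F) ^ 2 = 4 := by norm_num
      rwa [this]
    · exact hwP Q hQ _ h6
  · exact mul_ne_zero (pow_ne_zero _ hΛ0) hC10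
  · exact mul_ne_zero (mul_ne_zero (by norm_num) (pow_ne_zero _ hu.ne_zero)) hΛ0
  · rw [← hΛ]
    have hΛ2 : ∀ Q : Ideal (𝓞 F), Q.IsPrime → (2 : 𝓞 F) ∈ Q → Λ ∉ Q := fun Q hQ h2 h =>
      (hrr Q hQ (hΛr Q hQ h)).2 h2
    apply sub_ne_of r _ _ hΛ2
    intro Q hQ h2 h
    rcases hQ.mem_or_mem h with h3 | h3
    · exact hwP Q hQ _ h3
    · exact hΛ2 Q hQ h2 h3
  · intro P hP h2 x
    rw [← hΛ]
    exact hN2 P hP h2 x
  · intro P hP h3 x h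
    rw [← hΛ] at h
    obtain ⟨h1, h2⟩ := hrr P hP h3
    have hAP : A.eval x ∈ P := by
      apply hP.mem_of_pow_mem 2
      have e : A.eval x ^ 2 = (A.eval x ^ 2 + Λ * S.eval x ^ 2) - Λ * S.eval x ^ 2 := by ring
      rw [e]
      exact P.sub_mem h (P.mul_mem_right _ h1)
    have h4 : 2 ^ 2 * S.eval x ^ 2 ∈ P := by
      have e : 2 ^ 2 * S.eval x ^ 2 = w ^ (m + 2) * A.eval x - Λ * C1 := by
        linear_combination -hAx' x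
      rw [e]
      exact P.sub_mem (P.mul_mem_left _ hAP) (P.mul_mem_right _ h1)
    rcases hP.mem_or_mem h4 with h5 | h5
    · exact h2 (hP.mem_of_pow_mem 2 h5)
    · exact hSr P hP h3 x (hP.mem_of_pow_mem 2 h5)
  · intro P hP x hAP hSP h
    rw [← hΛ] at h
    have h4 : Λ * C1 ∈ P := by
      have e : Λ * C1 = w ^ (m + 2) * A.eval x - 4 * S.eval x * S.eval x := by
        linear_combination -hAx' x
      rw [e]
      exact P.sub_mem (P.mul_mem_left _ hAP) (P.mul_mem_left _ hSP)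
    rcases hP.mem_or_mem h4 with h5 | h5
    · exact hSr P hP (hΛr P hP h5) x hSP
    · by_cases h2 : (2 : 𝓞 F) ∈ P
      · exact hN2 P hP h2 x h
      · exact hSn P hP (hn1P P hP h2 h5) x hSP
  · intro P hP h
    rcases hP.mem_or_mem h with h | h
    · rcases hP.mem_or_mem h with h | h
      · exact Or.inl h
      · exact absurd h (hwP P hP _)
    · exact Or.inr (hΛr P hP h)
  · intro x
    rw [hg1, hg2]
    obtain ⟨N, hN⟩ : ∃ N, N = A.eval x ^ 2 + (4 - w ^ 2) * S.eval x ^ 2 := ⟨_, rfl⟩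
    rw [← hN]
    apply sq_mod_four w (4 - w ^ 2) N _ (N ^ g') r g hg rfl _ rfl
    have e : N ^ g - (N ^ g') ^ 2 = 0 := by
      rw [← pow_mul, hg', mul_comm g' 2, sub_self]
    rw [e]
    exact dvd_zero _

end H89RF
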