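import Mathlib

/-!
# Hyperelliptic curves with real multiplication by `ℤ[ζ_r + ζ_r⁻¹]` over every number field which
contains `ζ_r + ζ_r⁻¹`: definitions

Notation used in all files: `r = 2 g + 1` an odd prime, `w = ζ + ζ⁻¹` for a primitive `r`-th root of
unity `ζ`, `Λ = 4 - w ^ 2`.  For `n` in `𝓞 F` put `R = 64 n - Λ ^ r`, `a = n R`,
`T = n ^ g * R ^ (g + 1)`; then `T ^ 2 - 64 a ^ r = - Λ ^ r * n ^ (r - 1) * R ^ r`.  The curve is
`Y ^ 2 = - Λ (D_r(X, a) + T / 4)`, `D_r(X, a)` the Dickson polynomial (`dickson 1 a r`).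
-/

namespace H89RF

open NumberField Polynomial

/-- The curve `Y ^ 2 = f(X)`, `f` of odd degree over a number field `F`, has a smooth Weierstrass
model `y ^ 2 + Q(x) y = P(x)` over `𝓞 F` at the prime ideal `v`: `P` has the degree of `f` and a
leading coefficient which is not in `v`, `2 * deg Q < deg P`, the substitution `X = α x + β`,
`γ Y = 2 y + Q(x)` turns one equation into the other, and the model has no singular affine point
over any field which contains `𝓞 F ⧸ v`. -/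
def HasGoodModel {F : Type} [Field F] (f : F[X]) (v : Ideal (𝓞 F)) : Prop :=
  ∃ (P Q : (𝓞 F)[X]) (α β γ : F), α ≠ 0 ∧ γ ≠ 0 ∧ P.natDegree = f.natDegree ∧
    P.leadingCoeff ∉ v ∧ 2 * Q.natDegree < P.natDegree ∧
    (4 * P + Q ^ 2).map (algebraMap (𝓞 F) F) = C (γ ^ 2) * f.comp (C α * X + C β) ∧
    ∀ (k : Type) [Field k] (φ : 𝓞 F →+* k), RingHom.ker φ = v → ∀ x y : k,
      ¬ (y ^ 2 + (Q.map φ).eval x * y = (P.map φ).eval x ∧ 2 * y + (Q.map φ).eval x = 0 ∧
        (derivative (Q.map φ)).eval x * y = (derivative (P.map φ)).eval x)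

/-- the polynomial `(w ^ 2 - 4) (D_r(X, n R) + n ^ g R ^ (g + 1) / 4)`, `g = (r - 1) / 2` -/
noncomputable def curvePoly {F : Type} [Field F] (r : ℕ) (w n R : 𝓞 F) : F[X] :=
  C ((w : F) ^ 2 - 4) * (dickson 1 ((n : F) * R) r
    + C ((n : F) ^ ((r - 1) / 2) * (R : F) ^ ((r + 1) / 2) / 4))

/-- `w = ζ + ζ⁻¹` for a primitive `r`-th root of unity -/
def IsTrace {F : Type} [Field F] (r : ℕ) (w : 𝓞 F) : Prop :=
  ∃ ζ : AlgebraicClosure F, IsPrimitiveRoot ζ r ∧
    algebraMap F (AlgebraicClosure F) (w : F) = ζ + ζ⁻¹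

end H89RF
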