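import Pool.Agent.H89.RF.Defs

/-!
# Dickson polynomials `D_n(X, a)`

`u_0 = 0`, `u_1 = 1`, `u_(n+2) = X u_(n+1) - a u_n` (polynomials in `X`).  Then (two step inductions)
`D_(n+1) = X u_(n+1) - 2 a u_n`, `D_n' = n u_n`, `u_(n+1)^2 - X u_(n+1) u_n + a u_n^2 = a^n`, hence
`D_n^2 - 4 a^n = (X^2 - 4 a) u_n^2`.
-/

namespace H89RF

open Polynomial

/-- the polynomials `u_n` -/
noncomputable def useq {R : Type} [CommRing R] (a : R) : ℕ → R[X]
  | 0 => 0
  | 1 => 1
  | (n + 2) => X * useq a (n + 1) - C a * useq a n

theorem dick_useq {R : Type} [CommRing R] (a : R) (n : ℕ) :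
    dickson 1 a (n + 1) = X * useq a (n + 1) - C (2 * a) * useq a n := by
  induction n using Nat.twoStepInduction with
  | zero => simp [useq]
  | one =>
    have : (C (2 * a) : R[X]) = 2 * C a := by rw [C_mul]; congr 1
    simp only [useq, dickson_add_two, dickson_one, dickson_zero, Nat.reduceAdd]
    rw [this]
    push_cast
    ring
  | more n ih1 ih2 =>
    rw [dickson_add_two, ih1, ih2]
    have e : useq a (n + 3) = X * useq a (n + 2) - C a * useq a (n + 1) := rfl
    have e2 : useq a (n + 2) = X * useq a (n + 1) - C a * useq a n := rfl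
    rw [e, e2]
    ring

theorem dick_deriv {R : Type} [CommRing R] (a : R) (n : ℕ) :
    derivative (dickson 1 a n) = (n : R[X]) * useq a n := by
  induction n using Nat.twoStepInduction with
  | zero => simp [useq]
  | one => simp [useq]
  | more n ih1 ih2 =>
    have e2 : useq a (n + 2) = X * useq a (n + 1) - C a * useq a n := rfl
    rw [dickson_add_two, derivative_sub, derivative_mul, derivative_mul, derivative_X, ih1, ih2,
      dick_useq, derivative_C, e2, C_mul]
    have : (C 2 : R[X]) = 2 := map_ofNat C 2
    rw [this]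
    push_cast
    ring

theorem useq_inv {R : Type} [CommRing R] (a : R) (n : ℕ) :
    useq a (n + 1) ^ 2 - X * useq a (n + 1) * useq a n + C a * useq a n ^ 2 = C a ^ n := by
  induction n with
  | zero => simp [useq]
  | succ n ih =>
    have e2 : useq a (n + 2) = X * useq a (n + 1) - C a * useq a n := rfl
    rw [e2]
    linear_combination (C a) * ih

theorem dick_sq {R : Type} [CommRing R] (a : R) (n : ℕ) :
    dickson 1 a n ^ 2 - 4 * C a ^ n = (X ^ 2 - 4 * C a) * useq a n ^ 2 := by
  rcases n with _ | n
  · simp [useq]; norm_num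
  · have h2 : (C 2 : R[X]) = 2 := map_ofNat C 2
    rw [dick_useq, C_mul, h2]
    linear_combination (4 * C a) * useq_inv a n

theorem dick_crit {k : Type} [Field k] (r : ℕ) (a x : k) (hr : (r : k) ≠ 0)
    (h : (derivative (dickson 1 a r)).eval x = 0) : (dickson 1 a r).eval x ^ 2 = 4 * a ^ r := by
  rw [dick_deriv, eval_mul, eval_natCast] at h
  have hu := (mul_eq_zero.1 h).resolve_left hr
  have h2 := congrArg (fun f : k[X] => f.eval x) (dick_sq a r)
  simp only [eval_sub, eval_mul, eval_pow, eval_ofNat, eval_C, eval_X, hu] at h2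
  linear_combination h2

theorem dick_scale {R : Type} [CommRing R] (s a x : R) (n : ℕ) :
    (dickson 1 (s ^ 2 * a) n).eval (s * x) = s ^ n * (dickson 1 a n).eval x := by
  induction n using Nat.twoStepInduction with
  | zero => simp
  | one => simp
  | more n ih1 ih2 =>
    simp only [dickson_add_two, eval_sub, eval_mul, eval_X, eval_C]
    rw [ih1, ih2]
    ring

theorem dick_lead {R : Type} [CommRing R] (a : R) (n : ℕ) :
    (dickson 1 a (n + 1) - X ^ (n + 1)).degree < ((n + 1 : ℕ) : WithBot ℕ) := by
  induction n using Nat.twoStepInduction with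
  | zero => simp
  | one =>
    have e : dickson 1 a (1 + 1) - X ^ (1 + 1) = C (-(2 * a)) := by
      simp only [dickson_add_two, dickson_one, dickson_zero, Nat.reduceAdd, C_neg, C_mul]
      have : (C 2 : R[X]) = 2 := map_ofNat C 2
      rw [this]
      push_cast
      ring
    rw [e]
    exact lt_of_le_of_lt degree_C_le (by norm_num)
  | more n ih1 ih2 =>
    have e : dickson 1 a (n + 2 + 1) - X ^ (n + 2 + 1)
        = X * (dickson 1 a (n + 1 + 1) - X ^ (n + 1 + 1))
          - C a * (dickson 1 a (n + 1) - X ^ (n + 1)) - C a * X ^ (n + 1) := by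
      rw [dickson_add_two]
      ring
    rw [e]
    refine lt_of_le_of_lt (degree_sub_le _ _) (max_lt (lt_of_le_of_lt (degree_sub_le _ _)
      (max_lt ?_ ?_)) ?_)
    · refine lt_of_le_of_lt (degree_mul_le _ _) ?_
      have h1 : (X : R[X]).degree ≤ 1 := degree_X_le
      have h2 : ((n + 2 + 1 : ℕ) : WithBot ℕ) = 1 + ((n + 1 + 1 : ℕ) : WithBot ℕ) := by
        push_cast
        ring
      rw [h2]
      exact lt_of_le_of_lt (add_le_add h1 le_rfl) (WithBot.add_lt_add_left (by simp) ih2)
    · refine lt_of_le_of_lt (degree_mul_le _ _) ?_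
      refine lt_of_le_of_lt (add_le_add degree_C_le le_rfl) ?_
      rw [zero_add]
      exact lt_trans ih1 (by norm_cast; omega)
    · exact lt_of_le_of_lt (degree_C_mul_X_pow_le _ _) (by norm_cast; omega)

theorem dick_natDegree {R : Type} [CommRing R] [Nontrivial R] (a : R) (n : ℕ) :
    (dickson 1 a (n + 1)).Monic ∧ (dickson 1 a (n + 1)).natDegree = n + 1 := by
  have h := dick_lead a n
  have e : dickson 1 a (n + 1) = X ^ (n + 1) + (dickson 1 a (n + 1) - X ^ (n + 1)) := by ring
  have hd : (X ^ (n + 1) : R[X]).degree = ((n + 1 : ℕ) : WithBot ℕ) := degree_X_pow (n + 1)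
  have h1 : (dickson 1 a (n + 1) - X ^ (n + 1)).degree < (X ^ (n + 1) : R[X]).degree := by
    rw [hd]; exact h
  constructor
  · rw [e]
    exact (monic_X_pow (n + 1)).add_of_left h1
  · rw [e, natDegree_add_eq_left_of_degree_lt h1, natDegree_X_pow]

theorem dick_sub {R : Type} [CommRing R] (a b : R) (n : ℕ) :
    ∃ H : R[X], dickson 1 b n - dickson 1 a n = C (b - a) * H ∧ H.degree < (n : WithBot ℕ) := by
  nontriviality R
  induction n using Nat.twoStepInduction with
  | zero => exact ⟨0, by simp, by simp⟩
  | one => exact ⟨0, by simp, by rw [degree_zero]; exact WithBot.bot_lt_coe 1⟩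
  | more n ih1 ih2 =>
    obtain ⟨H1, h1, d1⟩ := ih1
    obtain ⟨H2, h2, d2⟩ := ih2
    refine ⟨X * H2 - C b * H1 - dickson 1 a n, ?_, ?_⟩
    · rw [dickson_add_two, dickson_add_two, C_sub]
      rw [C_sub] at h1 h2
      linear_combination X * h2 - C b * h1
    · have hn : (dickson 1 a n).degree < ((n + 2 : ℕ) : WithBot ℕ) := by
        rcases n with _ | n
        · have e : dickson 1 a 0 = C (2 : R) := by
            rw [dickson_zero]
            have : (C 2 : R[X]) = 2 := map_ofNat C 2
            rw [this]
            push_cast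
            ring
          rw [e]
          exact lt_of_le_of_lt degree_C_le (by norm_num)
        · have := (dick_natDegree a n).2
          refine lt_of_le_of_lt degree_le_natDegree ?_
          rw [this]
          norm_cast
          omega
      refine lt_of_le_of_lt (degree_sub_le _ _) (max_lt (lt_of_le_of_lt (degree_sub_le _ _)
        (max_lt ?_ ?_)) hn)
      · refine lt_of_le_of_lt (degree_mul_le _ _) ?_
        have h1 : (X : R[X]).degree ≤ 1 := degree_X_le
        have h2 : ((n + 2 : ℕ) : WithBot ℕ) = 1 + ((n + 1 : ℕ) : WithBot ℕ) := by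
          push_cast
          ring
        rw [h2]
        exact lt_of_le_of_lt (add_le_add h1 le_rfl) (WithBot.add_lt_add_left (by simp) d2)
      · refine lt_of_le_of_lt (degree_mul_le _ _) ?_
        refine lt_of_le_of_lt (add_le_add degree_C_le le_rfl) ?_
        rw [zero_add]
        exact lt_trans d1 (by norm_cast; omega)

end H89RF
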