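import Pool.Agent.H89.RF.Defs
import Pool.Agent.H76.EF.Schur
import Pool.Agent.H76.EF.Primes

/-!
# Polynomial values which are exactly divisible by a prime of degree one
-/

namespace H89RF

open NumberField Polynomial

variable {F : Type} [Field F] [NumberField F]

/-- a polynomial over `𝓞 F` has a root modulo large primes of degree one -/
theorem exists_root_hom (N : (𝓞 F)[X]) (hN : 0 < N.natDegree) (B : ℕ) :
    ∃ (p : ℕ) (φ : 𝓞 F →+* ZMod p) (x : ZMod p), p.Prime ∧ B < p ∧ eval₂ φ x N = 0 := by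
  obtain ⟨f, hf⟩ : ∃ f : F[X], f = N.map (algebraMap (𝓞 F) F) := ⟨_, rfl⟩
  have hinj : Function.Injective (algebraMap (𝓞 F) F) := RingOfIntegers.coe_injective
  have hfd : f.natDegree = N.natDegree := by rw [hf, natDegree_map_eq_of_injective hinj]
  have hf0 : f ≠ 0 := by
    intro h
    rw [h, natDegree_zero] at hfd
    omega
  have hdeg : (f.map (algebraMap F (AlgebraicClosure F))).degree ≠ 0 := by
    rw [degree_map, degree_eq_natDegree hf0, hfd]
    exact_mod_cast hN.ne'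
  obtain ⟨α, hα⟩ := IsAlgClosed.exists_root _ hdeg
  have hα' : aeval α f = 0 := by
    rwa [IsRoot.def, eval_map_algebraMap] at hα
  have hint : IsIntegral F α := Algebra.IsIntegral.isIntegral α
  let L := IntermediateField.adjoin F {α}
  have hfin : FiniteDimensional F L := IntermediateField.adjoin.finiteDimensional hint
  have hNF : NumberField L := NumberField.of_module_finite F L
  obtain ⟨a, ha⟩ : ∃ a : L, a = IntermediateField.AdjoinSimple.gen F α := ⟨_, rfl⟩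
  have haf : aeval a f = 0 := by
    apply (algebraMap L (AlgebraicClosure F)).injective
    rw [map_zero, ← aeval_algebraMap_apply, ha, IntermediateField.AdjoinSimple.algebraMap_gen, hα']
  have halg : IsAlgebraic ℤ a := by
    have h1 : IsAlgebraic ℚ a := Algebra.IsAlgebraic.isAlgebraic a
    exact (IsFractionRing.isAlgebraic_iff ℤ ℚ L).2 h1
  obtain ⟨c, hc0, hcint⟩ := halg.exists_integral_multiple
  obtain ⟨β, hβ⟩ : ∃ β : 𝓞 L, (β : L) = c • a := ⟨⟨c • a, hcint⟩, rfl⟩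
  obtain ⟨p, hp, hpB, ⟨ψ⟩⟩ := H76EF.exists_hom_large L (max B c.natAbs)
  have hpf : Fact p.Prime := ⟨hp⟩
  have hBp : B < p := lt_of_le_of_lt (le_max_left _ _) hpB
  have hcp : c.natAbs < p := lt_of_le_of_lt (le_max_right _ _) hpB
  obtain ⟨φ, hφ⟩ : ∃ φ : 𝓞 F →+* ZMod p, φ = ψ.comp (algebraMap (𝓞 F) (𝓞 L)) := ⟨_, rfl⟩
  obtain ⟨j, hj⟩ : ∃ j : 𝓞 F →+* L, j = (algebraMap F L).comp (algebraMap (𝓞 F) F) := ⟨_, rfl⟩
  have hj' : (algebraMap (𝓞 L) L).comp (algebraMap (𝓞 F) (𝓞 L)) = j := by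
    rw [hj, ← IsScalarTower.algebraMap_eq, ← IsScalarTower.algebraMap_eq]
  have hjN : eval₂ j a N = 0 := by
    rw [hf, aeval_def, eval₂_map, ← hj] at haf
    exact haf
  have hβj : (β : L) = j (c : 𝓞 F) * a := by
    rw [hβ, map_intCast, zsmul_eq_mul]
  have h1 : eval₂ (algebraMap (𝓞 F) (𝓞 L)) β (N.scaleRoots (c : 𝓞 F)) = 0 := by
    apply RingOfIntegers.coe_injective
    show algebraMap (𝓞 L) L _ = algebraMap (𝓞 L) L 0
    rw [hom_eval₂, hj', map_zero]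
    have h2 := scaleRoots_eval₂_mul (p := N) j a (c : 𝓞 F)
    rw [hjN, mul_zero, ← hβj] at h2
    exact h2
  have hc : ((c : ℤ) : ZMod p) ≠ 0 := by
    intro h
    rw [ZMod.intCast_zmod_eq_zero_iff_dvd] at h
    have := Nat.le_of_dvd (Int.natAbs_pos.2 hc0) (Int.natCast_dvd.1 h)
    omega
  refine ⟨p, φ, ψ β / (c : ZMod p), hp, hBp, ?_⟩
  have h3 := congrArg ψ h1
  rw [hom_eval₂, ← hφ, map_zero] at h3
  have h4 := scaleRoots_eval₂_mul (p := N) φ (ψ β / (c : ZMod p)) (c : 𝓞 F)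
  have h5 : φ (c : 𝓞 F) * (ψ β / (c : ZMod p)) = ψ β := by
    rw [map_intCast]
    field_simp
  rw [h5, h3, map_intCast] at h4
  exact (mul_eq_zero.1 h4.symm).resolve_left (pow_ne_zero _ hc)

/-- approximation: a value exactly divisible by a prime of degree one -/
theorem exists_point (N : (𝓞 F)[X]) (hN : 0 < N.natDegree) (c : ℕ) (hc : 0 < c)
    (hs : ∀ (P : Ideal (𝓞 F)), P.IsPrime → (c : 𝓞 F) ∉ P → ∀ x : 𝓞 F, N.eval x ∈ P →
      (derivative N).eval x ∉ P) (x m : 𝓞 F) (hm : m ≠ 0) (q : ℕ) (hq : 0 < q) (B : ℕ) :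
    ∃ (y : 𝓞 F) (p : ℕ) (P : Ideal (𝓞 F)), (q : 𝓞 F) ∣ y - x ∧ p.Prime ∧ B < p ∧
      ¬ (p : ℤ) ∣ discr F ∧ P.IsPrime ∧ Ideal.absNorm P = p ∧ (p : 𝓞 F) ∈ P ∧ N.eval y ∈ P ∧
      N.eval y ∉ P ^ 2 ∧
      ∀ P' : Ideal (𝓞 F), P'.IsPrime → (p : 𝓞 F) ∈ P' → m ∉ P' ∧ (P' ≠ P → y - x ∈ P') := by
  have hD : discr F ≠ 0 := discr_ne_zero F
  obtain ⟨p, φ, x1, hp, hpB, hx1⟩ := exists_root_hom N hN
    (max (max B c) (max q (max (discr F).natAbs (Algebra.norm ℤ m).natAbs)))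
  have hpf : Fact p.Prime := ⟨hp⟩
  have hpBB : B < p := by omega
  have hpc : c < p := by omega
  have hpq : q < p := by omega
  have hpD : ¬ (p : ℤ) ∣ discr F := by
    intro h
    have := Nat.le_of_dvd (Int.natAbs_pos.2 hD) (Int.natCast_dvd.1 h)
    omega
  obtain ⟨P, hP⟩ : ∃ P : Ideal (𝓞 F), P = RingHom.ker φ := ⟨_, rfl⟩
  have hPp : P.IsPrime := by rw [hP]; exact RingHom.ker_isPrime φ
  have hpP : (p : 𝓞 F) ∈ P := by rw [hP, RingHom.mem_ker, map_natCast, ZMod.natCast_self]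
  have hPn : Ideal.absNorm P = p := by
    rw [hP, Ideal.absNorm_apply, Submodule.cardQuot_apply]
    have e := RingHom.quotientKerEquivOfSurjective (ZMod.ringHom_surjective φ)
    rw [Nat.card_congr e.toEquiv, Nat.card_zmod]
  have hPm : P.IsMaximal := hPp.isMaximal (H76EF.natCast_mem_ne_bot hp hpP)
  -- an element of `P` which is not in `P ^ 2`
  have hpP2 : (p : 𝓞 F) ∉ P ^ 2 := H76EF.not_mem_sq hp hpD hPp hpP
  have hcP : (c : 𝓞 F) ∉ P := by
    intro h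
    have h1 : ((c : ℤ) : 𝓞 F) ∈ P := by exact_mod_cast h
    rw [H76EF.intCast_mem_iff hp hPp hpP] at h1
    have := Nat.le_of_dvd hc (by exact_mod_cast h1)
    omega
  obtain ⟨x2, hx2⟩ : ∃ x2 : 𝓞 F, φ x2 = x1 := ZMod.ringHom_surjective φ x1
  have hx2P : N.eval x2 ∈ P := by
    rw [hP, RingHom.mem_ker, ← eval₂_at_apply, hx2, hx1]
  have hmulP : ∀ t : 𝓞 F, t ∉ P → (p : 𝓞 F) * t ∉ P ^ 2 := by
    intro t ht h
    obtain ⟨s, i, hi, hsi⟩ := hPm.exists_inv ht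
    apply hpP2
    have e : (p : 𝓞 F) = s * ((p : 𝓞 F) * t) + (p : 𝓞 F) * i := by
      linear_combination (-(p : 𝓞 F)) * hsi
    rw [e]
    apply Ideal.add_mem _ (Ideal.mul_mem_left _ _ h)
    rw [pow_two]
    exact Ideal.mul_mem_mul hpP hi
  obtain ⟨x3, hx3, hx3'⟩ : ∃ x3 : 𝓞 F, N.eval x3 ∈ P ∧ N.eval x3 ∉ P ^ 2 := by
    by_cases h : N.eval x2 ∈ P ^ 2
    · obtain ⟨k, hk⟩ := N.binomExpansion x2 (p : 𝓞 F)
      have hpp : (p : 𝓞 F) ^ 2 ∈ P ^ 2 := Ideal.pow_mem_pow hpP 2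
      refine ⟨x2 + p, ?_, ?_⟩
      · rw [hk]
        exact P.add_mem (P.add_mem hx2P (P.mul_mem_left _ hpP))
          (P.mul_mem_left _ (P.pow_mem_of_mem hpP 2 (by norm_num)))
      · intro h5
        apply hmulP _ (hs P hPp hcP x2 hx2P)
        have e : (p : 𝓞 F) * (derivative N).eval x2
            = N.eval (x2 + p) - N.eval x2 - k * (p : 𝓞 F) ^ 2 := by
          rw [hk]
          ring
        rw [e]
        exact Ideal.sub_mem _ (Ideal.sub_mem _ h5 h) (Ideal.mul_mem_left _ _ hpp)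
    · exact ⟨x2, hx2P, h⟩
  have hqP : (q : 𝓞 F) ∉ P := by
    intro h
    have h1 : ((q : ℤ) : 𝓞 F) ∈ P := by exact_mod_cast h
    rw [H76EF.intCast_mem_iff hp hPp hpP] at h1
    have := Nat.le_of_dvd hq (by exact_mod_cast h1)
    omega
  obtain ⟨q', hq'⟩ : ∃ q' : 𝓞 F, 1 - (q : 𝓞 F) * q' ∈ P ^ 2 := by
    obtain ⟨s, i, hi, hsi⟩ := hPm.exists_inv hqP
    refine ⟨s * (1 + i), ?_⟩
    have e : 1 - (q : 𝓞 F) * (s * (1 + i)) = i ^ 2 := by linear_combination (-(1 + i)) * hsi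
    rw [e]
    exact Ideal.pow_mem_pow hi 2
  obtain ⟨b, hb1, hb2⟩ := H76EF.exists_sep hp hpD hPp hpP
  obtain ⟨y, hy⟩ : ∃ y : 𝓞 F, y = x + (q : 𝓞 F) * q' * b * (x3 - x) := ⟨_, rfl⟩
  have hyx3 : y - x3 ∈ P ^ 2 := by
    have e : y - x3 = (x - x3) * (b * (1 - (q : 𝓞 F) * q') + (1 - b)) := by
      rw [hy]
      ring
    rw [e]
    exact Ideal.mul_mem_left _ _ (Ideal.add_mem _ (Ideal.mul_mem_left _ _ hq') hb1)
  have hNy : N.eval y - N.eval x3 ∈ P ^ 2 := by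
    obtain ⟨k, hk⟩ := N.sub_dvd_eval_sub y x3
    rw [hk]
    exact Ideal.mul_mem_right _ _ hyx3
  have hle : P ^ 2 ≤ P := Ideal.pow_le_self two_ne_zero
  refine ⟨y, p, P, ⟨q' * b * (x3 - x), by rw [hy]; ring⟩, hp, hpBB, hpD, hPp, hPn, hpP, ?_, ?_, ?_⟩
  · have e : N.eval y = (N.eval y - N.eval x3) + N.eval x3 := by ring
    rw [e]
    exact P.add_mem (hle hNy) hx3
  · intro h
    apply hx3'
    have e : N.eval x3 = N.eval y - (N.eval y - N.eval x3) := by ring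
    rw [e]
    exact Ideal.sub_mem _ h hNy
  · intro P' hP' hpP'
    constructor
    · intro hmP
      have h1 : ((Ideal.absNorm (Ideal.span {m}) : ℕ) : 𝓞 F) ∈ P' := by
        have h2 : Ideal.span {m} ≤ P' := by
          rw [Ideal.span_le, Set.singleton_subset_iff]
          exact hmP
        exact h2 (Ideal.absNorm_mem _)
      rw [Ideal.absNorm_span_singleton] at h1
      have h2 : (((Algebra.norm ℤ m).natAbs : ℤ) : 𝓞 F) ∈ P' := by
        rw [Int.cast_natCast]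
        exact h1
      rw [H76EF.intCast_mem_iff hp hP' hpP'] at h2
      have hpos : 0 < (Algebra.norm ℤ m).natAbs := Int.natAbs_pos.2 (Algebra.norm_ne_zero_iff.2 hm)
      have := Nat.le_of_dvd hpos (Int.natCast_dvd_natCast.1 h2)
      omega
    · intro hne
      have e : y - x = (q : 𝓞 F) * q' * (x3 - x) * b := by rw [hy]; ring
      rw [e]
      exact P'.mul_mem_left _ (hb2 P' hP' hpP' hne)

end H89RF
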