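import Pool.Agent.H89.RF.CaseB

/-!
# Main theorem
-/

namespace H89RF

open NumberField Polynomial

variable {F : Type} [Field F] [NumberField F]

theorem good_all {r : ℕ} (hr : r.Prime) (hr2 : r ≠ 2) {w : 𝓞 F} (hw : IsTrace r w) :
    Good r (4 - w ^ 2) := by
  by_cases h3 : r = 3
  · subst h3
    exact good_three hw
  · have hodd : r % 2 = 1 := (hr.eq_two_or_odd).resolve_left hr2
    have h4 : r % 4 = 1 ∨ r % 4 = 3 := by omega
    rcases h4 with h4 | h4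
    · exact good_B hr h4 hw
    · exact good_A hr h3 h4 hw

theorem main (r : ℕ) (hr : r.Prime) (hr2 : r ≠ 2) (F : Type) [Field F] [NumberField F] (w : 𝓞 F)
    (hw : ∃ ζ : AlgebraicClosure F, IsPrimitiveRoot ζ r ∧
      algebraMap F (AlgebraicClosure F) (w : F) = ζ + ζ⁻¹) :
    ∃ N : (𝓞 F)[X], N.natDegree = 4 ∧
      ((N * (C 64 * N - C ((4 - w ^ 2) ^ r))).map (algebraMap (𝓞 F) F)).Separable ∧
      ∀ x n R : 𝓞 F, n = N.eval x → R = 64 * n - (4 - w ^ 2) ^ r →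
      (∀ P : Ideal (𝓞 F), P.IsPrime → n ∈ P → Ideal.absNorm P % (2 * r) = 1) ∧
      (∀ P : Ideal (𝓞 F), P.IsPrime → R ∈ P → Ideal.absNorm P % 4 = 1) ∧
      (∀ P : Ideal (𝓞 F), P.IsPrime → n ∉ P → R ∉ P → HasGoodModel (curvePoly r w n R) P) ∧
      ∀ q B : ℕ, 0 < q → ∃ (y : 𝓞 F) (p : ℕ) (P : Ideal (𝓞 F)), (q : 𝓞 F) ∣ y - x ∧
        p.Prime ∧ B < p ∧ ¬ (p : ℤ) ∣ discr F ∧ P.IsPrime ∧ Ideal.absNorm P = p ∧
        N.eval y ∈ P ∧ N.eval y ∉ P ^ 2 ∧
        ∀ P' : Ideal (𝓞 F), P'.IsPrime → (p : 𝓞 F) ∈ P' → P' ≠ P →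
          N.eval y ∉ P' ∧ 64 * N.eval y - (4 - w ^ 2) ^ r ∉ P' := by
  obtain ⟨N, A, S, k, E, c, hc, hNd, hsep, hNx, hRx, h2, hrP, hS, hE, hρ, hsimple⟩ :=
    good_all hr hr2 (w := w) hw
  have hodd : r % 2 = 1 := (hr.eq_two_or_odd).resolve_left hr2
  obtain ⟨Q, hQ, h2Q⟩ := exists_prime_over F Nat.prime_two
  have h2Q' : (2 : 𝓞 F) ∈ Q := by exact_mod_cast h2Q
  have hΛ2 : ∀ P : Ideal (𝓞 F), P.IsPrime → (2 : 𝓞 F) ∈ P → (4 - w ^ 2) ∉ P := by
    intro P hP h h1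
    have h3 := (((mem_iff hr hr2 hw hP).1).2 (((mem_iff hr hr2 hw hP).2).1 h1))
    exact two_notMem hr hr2 hP h3 h
  have hR2 : ∀ P : Ideal (𝓞 F), P.IsPrime → (2 : 𝓞 F) ∈ P → ∀ x,
      64 * N.eval x - (4 - w ^ 2) ^ r ∉ P := by
    intro P hP h x h1
    apply hΛ2 P hP h
    apply hP.mem_of_pow_mem r
    have e : (4 - w ^ 2) ^ r = 2 * (32 * N.eval x) - (64 * N.eval x - (4 - w ^ 2) ^ r) := by ring
    rw [e]
    exact P.sub_mem (P.mul_mem_right _ h) h1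
  have hRr : ∀ P : Ideal (𝓞 F), P.IsPrime → (r : 𝓞 F) ∈ P → ∀ x,
      64 * N.eval x - (4 - w ^ 2) ^ r ∉ P := by
    intro P hP h x h1
    have h3 : (4 - w ^ 2) ∈ P := ((mem_iff hr hr2 hw hP).2).2 (((mem_iff hr hr2 hw hP).1).1 h)
    have h4 : 2 ^ 6 * N.eval x ∈ P := by
      have e : 2 ^ 6 * N.eval x = (64 * N.eval x - (4 - w ^ 2) ^ r) + (4 - w ^ 2) ^ r := by ring
      rw [e]
      exact P.add_mem h1 (P.pow_mem_of_mem h3 r hr.pos)
    rcases hP.mem_or_mem h4 with h5 | h5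
    · exact two_notMem hr hr2 hP h (hP.mem_of_pow_mem 6 h5)
    · exact hrP P hP h x h5
  have hbot : ∀ (P : Ideal (𝓞 F)) (z : 𝓞 F), z ∉ Q → z ∈ P → P ≠ ⊥ := by
    intro P z hz hzP h
    rw [h, Ideal.mem_bot] at hzP
    apply hz
    rw [hzP]
    exact Q.zero_mem
  refine ⟨N, hNd, hsep, ?_⟩
  rintro x n R rfl rfl
  refine ⟨?_, ?_, ?_, ?_⟩
  · intro P hP hn
    have hb := hbot P _ (h2 Q hQ h2Q' x) hn
    apply norm_mod_two_r hr hr2 hw (A.eval x) (S.eval x) P hP hb (fun h => h2 P hP h x hn)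
      (fun h => hrP P hP h x hn) (hS P hP x hn)
    rw [← hNx]
    exact hn
  · intro P hP hR
    have hb := hbot P _ (hR2 Q hQ h2Q' x) hR
    apply norm_mod_four (8 * A.eval x + k) E P hP hb (fun h => hR2 P hP h x hR)
    · intro hEP
      rcases hE P hP hEP with h | h
      · exact hR2 P hP h x hR
      · exact hRr P hP h x hR
    · rw [← hRx]
      exact hR
  · intro P hP hn hR
    by_cases h : (r : 𝓞 F) ∈ P
    · exact good_r hr hr2 hw _ _ rfl P hP h hn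
    · obtain ⟨s, t, hst⟩ := hρ x
      exact good_away hr hr2 hw _ _ s t rfl hst P hP h hn hR
  · intro q B hq
    have hm : N.eval x * (64 * N.eval x - (4 - w ^ 2) ^ r) ≠ 0 := by
      intro h0
      rcases mul_eq_zero.1 h0 with h | h
      · apply h2 Q hQ h2Q' x
        rw [h]
        exact Q.zero_mem
      · apply hR2 Q hQ h2Q' x
        rw [h]
        exact Q.zero_mem
    obtain ⟨y, p, P, h3, h4, h5, h6, h7, h8, h9, h10, h11, h12⟩ :=
      exists_point N (by omega) c hc hsimple x _ hm q hq B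
    refine ⟨y, p, P, h3, h4, h5, h6, h7, h8, h10, h11, ?_⟩
    intro P' hP' hpP' hne
    obtain ⟨h13, h14⟩ := h12 P' hP' hpP'
    have h15 := h14 hne
    have hdiff : N.eval y - N.eval x ∈ P' := by
      obtain ⟨d, hd⟩ := N.sub_dvd_eval_sub y x
      rw [hd]
      exact P'.mul_mem_right _ h15
    constructor
    · intro h
      apply h13
      apply P'.mul_mem_right
      have e : N.eval x = N.eval y - (N.eval y - N.eval x) := by ring
      rw [e]
      exact P'.sub_mem h hdiff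
    · intro h
      apply h13
      apply P'.mul_mem_left
      have e : 64 * N.eval x - (4 - w ^ 2) ^ r
          = (64 * N.eval y - (4 - w ^ 2) ^ r) - 64 * (N.eval y - N.eval x) := by ring
      rw [e]
      exact P'.sub_mem h (P'.mul_mem_left _ hdiff)

end H89RF
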