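import Pool.Agent.H89.RF.AtR3
import Pool.Agent.H76.EF.Residue

/-!
# Norms of the bad primes
-/

namespace H89RF

open NumberField Polynomial

theorem card_mod_r {k : Type} [Field k] [Finite k] {r : ℕ} (hr : r.Prime) (hr2 : r ≠ 2)
    (w A S : k) (h2 : (2 : k) ≠ 0) (hw2 : 2 - w ≠ 0)
    (hd : (dickson 1 (1 : k) r).eval w = 2) (hS : S ≠ 0)
    (h : A ^ 2 + (4 - w ^ 2) * S ^ 2 = 0) : Nat.card k % r = 1 := by
  obtain ⟨z, hz⟩ : ∃ z : k, z = (w + A / S) / 2 := ⟨_, rfl⟩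
  have hz1 : z ^ 2 - w * z + 1 = 0 := by
    rw [hz]
    field_simp
    linear_combination h
  have hz0 : z ≠ 0 := by
    intro h0
    rw [h0] at hz1
    have : (1 : k) = 0 := by linear_combination hz1
    exact one_ne_zero this
  have hw : w = z + z⁻¹ := by
    field_simp
    linear_combination -hz1
  have h3 : z ^ r + (z⁻¹) ^ r = 2 := by
    rw [← hd, hw]
    exact (dickson_one_one_eval_add_inv z z⁻¹ (mul_inv_cancel₀ hz0) r).symm
  have hzr : z ^ r = 1 := by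
    obtain ⟨t, ht⟩ : ∃ t, t = z ^ r := ⟨_, rfl⟩
    have ht0 : t ≠ 0 := by rw [ht]; exact pow_ne_zero _ hz0
    rw [inv_pow, ← ht] at h3
    have h4 : (t - 1) ^ 2 = 0 := by
      field_simp at h3
      linear_combination h3
    rw [← ht]
    have := pow_eq_zero_iff two_ne_zero |>.1 h4
    linear_combination this
  have hz1' : z ≠ 1 := by
    intro h1
    apply hw2
    rw [hw, h1]
    norm_num
  have : Fact r.Prime := ⟨hr⟩
  have hord : orderOf z = r := orderOf_eq_prime hzr hz1'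
  have : Fintype k := Fintype.ofFinite k
  have hdv : r ∣ Fintype.card k - 1 := by
    rw [← hord]
    exact orderOf_dvd_of_pow_eq_one (FiniteField.pow_card_sub_one_eq_one z hz0)
  have hc : 1 < Fintype.card k := Fintype.one_lt_card
  rw [Nat.card_eq_fintype_card]
  obtain ⟨m, hm⟩ := hdv
  have h5 : Fintype.card k = r * m + 1 := by omega
  have hr1 := hr.one_lt
  rw [h5, Nat.mul_add_mod, Nat.mod_eq_of_lt hr1]

variable {F : Type} [Field F] [NumberField F]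

theorem norm_mod_r {r : ℕ} (hr : r.Prime) (hr2 : r ≠ 2) {w : 𝓞 F} (hw : IsTrace r w)
    (A S : 𝓞 F) (P : Ideal (𝓞 F)) (hP : P.IsPrime) (hPb : P ≠ ⊥) (h2 : (2 : 𝓞 F) ∉ P)
    (hrP : (r : 𝓞 F) ∉ P) (hS : S ∉ P) (h : A ^ 2 + (4 - w ^ 2) * S ^ 2 ∈ P) :
    Ideal.absNorm P % r = 1 := by
  have hmax : P.IsMaximal := hP.isMaximal hPb
  let _ : Field (𝓞 F ⧸ P) := Ideal.Quotient.field P
  have hfin : Finite (𝓞 F ⧸ P) := Ideal.finiteQuotientOfFreeOfNeBot P hPb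
  obtain ⟨-, -, -, -, hd, -, -⟩ := facts hr hr2 hw
  rw [Ideal.absNorm_apply, Submodule.cardQuot_apply]
  have hne : ∀ z : 𝓞 F, z ∉ P → Ideal.Quotient.mk P z ≠ 0 := fun z hz h0 =>
    hz (Ideal.Quotient.eq_zero_iff_mem.1 h0)
  apply card_mod_r hr hr2 (Ideal.Quotient.mk P w) (Ideal.Quotient.mk P A) (Ideal.Quotient.mk P S)
  · have := hne 2 h2
    rwa [map_ofNat] at this
  · have h3 : 2 - w ∉ P := fun h3 => hrP (((mem_iff hr hr2 hw hP).1).2 h3)
    have := hne _ h3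
    rwa [map_sub, map_ofNat] at this
  · have h3 := congrArg (Ideal.Quotient.mk P) hd
    rw [← eval₂_at_apply, ← eval_map, map_dickson, map_one, map_ofNat] at h3
    exact h3
  · exact hne S hS
  · have h0 := Ideal.Quotient.eq_zero_iff_mem.2 h
    rw [map_add, map_mul, map_pow, map_pow, map_sub, map_pow, map_ofNat] at h0
    exact h0

theorem norm_mod_two_r {r : ℕ} (hr : r.Prime) (hr2 : r ≠ 2) {w : 𝓞 F} (hw : IsTrace r w)
    (A S : 𝓞 F) (P : Ideal (𝓞 F)) (hP : P.IsPrime) (hPb : P ≠ ⊥) (h2 : (2 : 𝓞 F) ∉ P)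
    (hrP : (r : 𝓞 F) ∉ P) (hS : S ∉ P) (h : A ^ 2 + (4 - w ^ 2) * S ^ 2 ∈ P) :
    Ideal.absNorm P % (2 * r) = 1 := by
  have h1 := norm_mod_r hr hr2 hw A S P hP hPb h2 hrP hS h
  have h3 : Ideal.absNorm P % 2 = 1 := by
    have hmax : P.IsMaximal := hP.isMaximal hPb
    let _ : Field (𝓞 F ⧸ P) := Ideal.Quotient.field P
    have hfin : Finite (𝓞 F ⧸ P) := Ideal.finiteQuotientOfFreeOfNeBot P hPb
    have hft : Fintype (𝓞 F ⧸ P) := Fintype.ofFinite _
    rw [Ideal.absNorm_apply, Submodule.cardQuot_apply, Nat.card_eq_fintype_card]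
    apply FiniteField.odd_card_of_char_ne_two
    intro h4
    apply h2
    rw [← Ideal.Quotient.eq_zero_iff_mem, map_ofNat]
    have h5 := ringChar.Nat.cast_ringChar (R := 𝓞 F ⧸ P)
    rw [h4] at h5
    exact_mod_cast h5
  have hcop : Nat.Coprime 2 r := by
    rw [Nat.coprime_primes Nat.prime_two hr]
    exact fun h => hr2 h.symm
  have hr1 := hr.one_lt
  have h6 : Ideal.absNorm P ≡ 1 [MOD 2 * r] := by
    rw [← Nat.modEq_and_modEq_iff_modEq_mul hcop]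
    constructor
    · rw [Nat.ModEq, h3]
    · rw [Nat.ModEq, h1, Nat.mod_eq_of_lt hr1]
  have h7 : 1 % (2 * r) = 1 := Nat.mod_eq_of_lt (by omega)
  rw [Nat.ModEq, h7] at h6
  exact h6

theorem norm_mod_four (a b : 𝓞 F) (P : Ideal (𝓞 F)) (hP : P.IsPrime) (hPb : P ≠ ⊥)
    (h2 : (2 : 𝓞 F) ∉ P) (hb : b ∉ P) (h : a ^ 2 + b ^ 2 ∈ P) :
    Ideal.absNorm P % 4 = 1 := by
  have hmax : P.IsMaximal := hP.isMaximal hPb
  let _ : Field (𝓞 F ⧸ P) := Ideal.Quotient.field P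
  have hfin : Finite (𝓞 F ⧸ P) := Ideal.finiteQuotientOfFreeOfNeBot P hPb
  rw [Ideal.absNorm_apply, Submodule.cardQuot_apply]
  have hne : ∀ z : 𝓞 F, z ∉ P → Ideal.Quotient.mk P z ≠ 0 := fun z hz h0 =>
    hz (Ideal.Quotient.eq_zero_iff_mem.1 h0)
  apply H76EF.card_mod_four (Ideal.Quotient.mk P a) (Ideal.Quotient.mk P b)
  · have := hne 2 h2
    rwa [map_ofNat] at this
  · exact hne b hb
  · have h0 := Ideal.Quotient.eq_zero_iff_mem.2 h
    rw [map_add, map_pow, map_pow] at h0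
    exact h0

end H89RF
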