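import Pool.Agent.H89.RF.NormR
import Pool.Agent.H89.RF.Exist

/-!
# The family of parameters: `N = A ^ 2 + Λ S ^ 2`, `64 N - Λ ^ r = (8 A + k) ^ 2 + E ^ 2`
-/

namespace H89RF

open NumberField Polynomial

variable {F : Type} [Field F] [NumberField F]

/-- the properties of the parameters -/
def Good (r : ℕ) (Λ : 𝓞 F) : Prop :=
  ∃ (N A S : (𝓞 F)[X]) (k E : 𝓞 F) (c : ℕ), 0 < c ∧ N.natDegree = 4 ∧
    ((N * (C 64 * N - C (Λ ^ r))).map (algebraMap (𝓞 F) F)).Separable ∧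
    (∀ x, N.eval x = A.eval x ^ 2 + Λ * S.eval x ^ 2) ∧
    (∀ x, 64 * N.eval x - Λ ^ r = (8 * A.eval x + k) ^ 2 + E ^ 2) ∧
    (∀ (P : Ideal (𝓞 F)), P.IsPrime → (2 : 𝓞 F) ∈ P → ∀ x, N.eval x ∉ P) ∧
    (∀ (P : Ideal (𝓞 F)), P.IsPrime → (r : 𝓞 F) ∈ P → ∀ x, N.eval x ∉ P) ∧
    (∀ (P : Ideal (𝓞 F)), P.IsPrime → ∀ x, N.eval x ∈ P → S.eval x ∉ P) ∧
    (∀ (P : Ideal (𝓞 F)), P.IsPrime → E ∈ P → (2 : 𝓞 F) ∈ P ∨ (r : 𝓞 F) ∈ P) ∧
    (∀ x, ∃ s t : 𝓞 F, s ^ 2 + 4 * t = -Λ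
      * (N.eval x ^ ((r - 1) / 2) * (64 * N.eval x - Λ ^ r) ^ ((r + 1) / 2))) ∧
    (∀ (P : Ideal (𝓞 F)), P.IsPrime → (c : 𝓞 F) ∉ P → ∀ x, N.eval x ∈ P →
      (derivative N).eval x ∉ P)

theorem norm_mem {z : 𝓞 F} {P : Ideal (𝓞 F)} (h : z ∈ P) :
    (((Algebra.norm ℤ z).natAbs : ℕ) : 𝓞 F) ∈ P := by
  have h1 : ((Ideal.absNorm (Ideal.span {z}) : ℕ) : 𝓞 F) ∈ P := by
    have h2 : Ideal.span {z} ≤ P := by
      rw [Ideal.span_le, Set.singleton_subset_iff]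
      exact h
    exact h2 (Ideal.absNorm_mem _)
  rwa [Ideal.absNorm_span_singleton] at h1

theorem coprime_of {K : Type} [Field K] {a b u v : K[X]} {c : K} (hc : c ≠ 0)
    (h : u * a + v * b = C c) : IsCoprime a b := by
  refine ⟨C c⁻¹ * u, C c⁻¹ * v, ?_⟩
  have e : C c⁻¹ * u * a + C c⁻¹ * v * b = C c⁻¹ * (u * a + v * b) := by ring
  rw [e, h, ← C_mul, inv_mul_cancel₀ hc, C_1]

theorem sep_poly (r : ℕ) (Λ : 𝓞 F) (A S N : (𝓞 F)[X]) (k E C0 m : 𝓞 F)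
    (hm : m ≠ 0) (hΛ : Λ ≠ 0) (hk : k ≠ 0)
    (hA : C k * A = C (4 * Λ) * S ^ 2 + C C0) (hN : N = A ^ 2 + C Λ * S ^ 2)
    (h16 : 16 * C0 = -Λ ^ r - k ^ 2 - E ^ 2) (hSd : derivative S = C m)
    (hE0 : Λ ^ r + E ^ 2 ≠ 0) (hC00 : C0 ≠ 0) (hE00 : E ≠ 0)
    (hX : 64 * C0 ^ 2 - k ^ 2 * Λ ^ r ≠ 0) :
    ((N * (C 64 * N - C (Λ ^ r))).map (algebraMap (𝓞 F) F)).Separable := by
  obtain ⟨R, hR⟩ : ∃ R : (𝓞 F)[X], R = C 64 * N - C (Λ ^ r) := ⟨_, rfl⟩
  have c4 : (C 4 : (𝓞 F)[X]) = 4 := map_ofNat C 4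
  have c8 : (C 8 : (𝓞 F)[X]) = 8 := map_ofNat C 8
  have c16 : (C 16 : (𝓞 F)[X]) = 16 := map_ofNat C 16
  have c64 : (C 64 : (𝓞 F)[X]) = 64 := map_ofNat C 64
  obtain ⟨M, hM⟩ : ∃ M : (𝓞 F)[X], M = C 8 * A + C k := ⟨_, rfl⟩
  have h16' : 16 * (C C0 : (𝓞 F)[X]) = -C (Λ ^ r) - C k ^ 2 - C E ^ 2 := by
    rw [← c16, ← C_mul, h16, C_sub, C_sub, C_neg, ← C_pow, ← C_pow]
  have hA' : C k * A = 4 * C Λ * S ^ 2 + C C0 := by rw [hA, C_mul, c4]
  have hRM : R = M ^ 2 + C E ^ 2 := by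
    rw [hR, hM, hN, c64, c8]
    linear_combination (-16 : (𝓞 F)[X]) * hA' - h16'
  have hN' : C k * derivative N = 2 * C Λ * C m * S * M := by
    have h1 := congrArg derivative hA
    simp only [derivative_mul, derivative_add, derivative_pow, derivative_C, hSd, zero_mul,
      zero_add, add_zero, Nat.cast_ofNat, Nat.add_one_sub_one, pow_one] at h1
    rw [C_mul, c4] at h1
    have c2 : (C 2 : (𝓞 F)[X]) = 2 := map_ofNat C 2
    rw [hN, hM, c8]
    simp only [derivative_mul, derivative_add, derivative_pow, derivative_C, hSd, zero_mul,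
      zero_add, Nat.cast_ofNat, Nat.add_one_sub_one, pow_one]
    rw [c2] at h1 ⊢
    linear_combination (2 * A) * h1
  have b1 : C (k ^ 2) * N + (-C (k ^ 2) * C Λ * S - 8 * C k * C Λ * A * S + 16 * C Λ ^ 2 * S ^ 3) * S
      = C (C0 ^ 2) := by
    rw [hN, C_pow, C_pow]
    linear_combination (C k * A - 4 * C Λ * S ^ 2 + C C0) * hA'
  have b2 : C 64 * N + (-M) * M = C (Λ ^ r + E ^ 2) := by
    rw [C_add, C_pow (a := E)]
    rw [hR] at hRM
    linear_combination hRM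
  have b3 : C (k ^ 2) * R
      + (64 * (-C (k ^ 2) * C Λ * S - 8 * C k * C Λ * A * S + 16 * C Λ ^ 2 * S ^ 3)) * S
      = C (64 * C0 ^ 2 - k ^ 2 * Λ ^ r) := by
    rw [hR, C_sub, C_mul (a := (64 : 𝓞 F)), C_mul (a := k ^ 2), c64]
    linear_combination 64 * b1
  have b4 : 1 * R + (-M) * M = C (E ^ 2) := by
    rw [C_pow]
    linear_combination hRM
  have b5 : C 64 * N + (-1) * R = C (Λ ^ r) := by
    rw [hR]
    ring
  obtain ⟨φ, hφ⟩ : ∃ φ : 𝓞 F →+* F, φ = algebraMap (𝓞 F) F := ⟨_, rfl⟩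
  have inj : ∀ z : 𝓞 F, z ≠ 0 → φ z ≠ 0 := by
    intro z hz h
    apply hz
    rw [hφ] at h
    exact (map_eq_zero_iff _ (FaithfulSMul.algebraMap_injective (𝓞 F) F)).1 h
  have d : ∀ (u a v b : (𝓞 F)[X]) (c : 𝓞 F), c ≠ 0 → u * a + v * b = C c →
      IsCoprime (a.map φ) (b.map φ) := by
    intro u a v b c hc h
    have h2 := congrArg (Polynomial.map φ) h
    rw [Polynomial.map_add, Polynomial.map_mul, Polynomial.map_mul, map_C] at h2
    exact coprime_of (inj c hc) h2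
  have e1 := d _ _ _ _ _ (pow_ne_zero 2 hC00) b1
  have e2 := d _ _ _ _ _ hE0 b2
  have e3 := d _ _ _ _ _ hX b3
  have e4 := d _ _ _ _ _ (pow_ne_zero 2 hE00) b4
  have e5 := d _ _ _ _ _ (pow_ne_zero r hΛ) b5
  have hunit : ∀ (f : F[X]) (c : F), c ≠ 0 → IsCoprime f (C c) := by
    intro f c hc
    refine ⟨0, C c⁻¹, ?_⟩
    rw [zero_mul, zero_add, ← C_mul, inv_mul_cancel₀ hc, C_1]
  have t : φ (2 * Λ * m) ≠ 0 := inj _ (mul_ne_zero (mul_ne_zero (by norm_num) hΛ) hm)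
  have hNs : (N.map φ).Separable := by
    have h1 : C (φ k) * derivative (N.map φ) = C (φ (2 * Λ * m)) * (S.map φ * M.map φ) := by
      have h2 := congrArg (Polynomial.map φ) hN'
      have c2 : (C 2 : (𝓞 F)[X]) = 2 := map_ofNat C 2
      rw [← c2, ← C_mul, ← C_mul, Polynomial.map_mul, Polynomial.map_mul, Polynomial.map_mul,
        map_C, map_C, mul_assoc] at h2
      rw [derivative_map, h2]
    have h3 : IsCoprime (N.map φ) (C (φ (2 * Λ * m)) * (S.map φ * M.map φ)) :=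
      (hunit _ _ t).mul_right (e1.mul_right e2)
    rw [← h1] at h3
    exact h3.of_mul_right_right
  have hRs : (R.map φ).Separable := by
    have h1 : C (φ k) * derivative (R.map φ) = C (φ (64 * (2 * Λ * m))) * (S.map φ * M.map φ) := by
      have h0 : C k * derivative R = C (64 * (2 * Λ * m)) * (S * M) := by
        have c2 : (C 2 : (𝓞 F)[X]) = 2 := map_ofNat C 2
        have h4 : derivative R = C 64 * derivative N := by
          rw [hR, derivative_sub, derivative_C, sub_zero, derivative_C_mul]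
        rw [h4, C_mul (b := 2 * Λ * m), C_mul (b := m), C_mul (b := Λ), c2]
        linear_combination (C 64 : (𝓞 F)[X]) * hN'
      have h2 := congrArg (Polynomial.map φ) h0
      rw [Polynomial.map_mul, Polynomial.map_mul, Polynomial.map_mul, map_C, map_C] at h2
      rw [derivative_map, h2]
    have h3 : IsCoprime (R.map φ) (C (φ (64 * (2 * Λ * m))) * (S.map φ * M.map φ)) := by
      refine (hunit _ _ ?_).mul_right (e3.mul_right e4)
      rw [map_mul]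
      exact mul_ne_zero (inj _ (by norm_num)) t
    rw [← h1] at h3
    exact h3.of_mul_right_right
  rw [← hR, ← hφ, Polynomial.map_mul]
  exact hNs.mul hRs e5

theorem mk_params (r : ℕ) (Λ : 𝓞 F) (A S : (𝓞 F)[X]) (k E C0 s0 m : 𝓞 F)
    (hS : S = C s0 + C m * X) (hm : m ≠ 0) (hΛ : Λ ≠ 0) (hk : k ≠ 0)
    (hA : C k * A = C (4 * Λ) * S ^ 2 + C C0)
    (h16 : 16 * C0 = -Λ ^ r - k ^ 2 - E ^ 2)
    (hE0 : Λ ^ r + E ^ 2 ≠ 0) (hC00 : C0 ≠ 0) (hE00 : E ≠ 0) (hX : 64 * C0 ^ 2 - k ^ 2 * Λ ^ r ≠ 0)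
    (h2 : ∀ (P : Ideal (𝓞 F)), P.IsPrime → (2 : 𝓞 F) ∈ P → ∀ x,
      A.eval x ^ 2 + Λ * S.eval x ^ 2 ∉ P)
    (hr : ∀ (P : Ideal (𝓞 F)), P.IsPrime → (r : 𝓞 F) ∈ P → ∀ x,
      A.eval x ^ 2 + Λ * S.eval x ^ 2 ∉ P)
    (hAS : ∀ (P : Ideal (𝓞 F)), P.IsPrime → ∀ x, A.eval x ∈ P → S.eval x ∈ P → 
      A.eval x ^ 2 + Λ * S.eval x ^ 2 ∉ P)
    (hE : ∀ (P : Ideal (𝓞 F)), P.IsPrime → E ∈ P → (2 : 𝓞 F) ∈ P ∨ (r : 𝓞 F) ∈ P)
    (hρ : ∀ x, ∃ s t : 𝓞 F, s ^ 2 + 4 * t = -Λ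
      * ((A.eval x ^ 2 + Λ * S.eval x ^ 2) ^ ((r - 1) / 2)
        * (64 * (A.eval x ^ 2 + Λ * S.eval x ^ 2) - Λ ^ r) ^ ((r + 1) / 2))) :
    Good r Λ := by
  obtain ⟨N, hN⟩ : ∃ N : (𝓞 F)[X], N = A ^ 2 + C Λ * S ^ 2 := ⟨_, rfl⟩
  have hNx : ∀ x, N.eval x = A.eval x ^ 2 + Λ * S.eval x ^ 2 := by
    intro x
    rw [hN]
    simp only [eval_add, eval_mul, eval_pow, eval_C]
  have hAx : ∀ x, k * A.eval x = 4 * Λ * S.eval x ^ 2 + C0 := by
    intro x
    have := congrArg (fun f : (𝓞 F)[X] => f.eval x) hA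
    simpa only [eval_add, eval_mul, eval_pow, eval_C] using this
  have hRx : ∀ x, 64 * N.eval x - Λ ^ r = (8 * A.eval x + k) ^ 2 + E ^ 2 := by
    intro x
    rw [hNx]
    linear_combination (-16 : 𝓞 F) * hAx x - h16
  have hSx : ∀ x, S.eval x = s0 + m * x := by
    intro x
    rw [hS]
    simp only [eval_add, eval_mul, eval_C, eval_X]
  have hSd : derivative S = C m := by
    rw [hS]
    simp only [derivative_add, derivative_C, derivative_mul, derivative_X, zero_mul, zero_add,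
      mul_one]
  have hN' : ∀ x, k * (derivative N).eval x = 2 * Λ * m * S.eval x * (8 * A.eval x + k) := by
    intro x
    have h1 := congrArg (fun f : (𝓞 F)[X] => (derivative f).eval x) hA
    simp only [derivative_mul, derivative_add, derivative_pow, derivative_C, hSd, eval_add,
      eval_mul, eval_C, eval_pow, zero_mul, zero_add, add_zero, eval_natCast, Nat.cast_ofNat,
      Nat.add_one_sub_one, pow_one] at h1
    rw [hN]
    simp only [derivative_mul, derivative_add, derivative_pow, derivative_C, hSd, eval_add,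
      eval_mul, eval_C, eval_pow, zero_mul, zero_add, add_zero, eval_natCast, Nat.cast_ofNat,
      Nat.add_one_sub_one, pow_one]
    linear_combination 2 * A.eval x * h1
  have hSdeg : S.natDegree = 1 := by
    rw [hS, add_comm, natDegree_add_C, natDegree_C_mul_X _ hm]
  have hS2 : (S ^ 2).natDegree = 2 := by rw [natDegree_pow, hSdeg]
  have hSne : S ≠ 0 := by
    intro h
    rw [h, natDegree_zero] at hSdeg
    omega
  have h4Λ : 4 * Λ ≠ 0 := mul_ne_zero (by norm_num) hΛ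
  have hAdeg : A.natDegree = 2 := by
    have h1 : (C k * A).natDegree = 2 := by
      rw [hA, natDegree_add_C, natDegree_C_mul h4Λ, hS2]
    rwa [natDegree_C_mul hk] at h1
  have hNdeg : N.natDegree = 4 := by
    have h1 : (A ^ 2).natDegree = 4 := by rw [natDegree_pow, hAdeg]
    have h2 : (C Λ * S ^ 2).natDegree = 2 := by rw [natDegree_C_mul hΛ, hS2]
    rw [hN, natDegree_add_eq_left_of_natDegree_lt (by rw [h1, h2]; norm_num), h1]
  obtain ⟨z, hz⟩ : ∃ z, z = 2 * Λ * m * (Λ ^ r + E ^ 2) := ⟨_, rfl⟩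
  have hz0 : z ≠ 0 := by
    rw [hz]
    exact mul_ne_zero (mul_ne_zero (mul_ne_zero (by norm_num) hΛ) hm) hE0
  have hc0 : 0 < (Algebra.norm ℤ z).natAbs := Int.natAbs_pos.2 (Algebra.norm_ne_zero_iff.2 hz0)
  refine ⟨N, A, S, k, E, (Algebra.norm ℤ z).natAbs, hc0, hNdeg, ?_, hNx, hRx, ?_, ?_, ?_, hE,
    ?_, ?_⟩
  · exact sep_poly r Λ A S N k E C0 m hm hΛ hk hA hN h16 hSd hE0 hC00 hE00 hX
  · intro P hP h x
    rw [hNx]
    exact h2 P hP h x
  · intro P hP h x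
    rw [hNx]
    exact hr P hP h x
  · intro P hP x h hSP
    have hAP : A.eval x ∈ P := by
      apply hP.mem_of_pow_mem 2
      have e : A.eval x ^ 2 = N.eval x - Λ * S.eval x * S.eval x := by rw [hNx]; ring
      rw [e]
      exact P.sub_mem h (P.mul_mem_left _ hSP)
    rw [hNx] at h
    exact hAS P hP x hAP hSP h
  · intro x
    rw [hNx]
    exact hρ x
  · intro P hP hc x h h'
    have hzP : z ∉ P := fun hz => hc (norm_mem hz)
    have hk1 : 2 * Λ * m * S.eval x * (8 * A.eval x + k) ∈ P := by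
      rw [← hN' x]
      exact P.mul_mem_left _ h'
    rw [hz] at hzP
    rcases hP.mem_or_mem hk1 with h3 | h3
    · rcases hP.mem_or_mem h3 with h4 | h4
      · exact hzP (P.mul_mem_right _ h4)
      · have hAP : A.eval x ∈ P := by
          apply hP.mem_of_pow_mem 2
          have e : A.eval x ^ 2 = N.eval x - Λ * S.eval x * S.eval x := by rw [hNx]; ring
          rw [e]
          exact P.sub_mem h (P.mul_mem_left _ h4)
        rw [hNx] at h
        exact hAS P hP x hAP h4 h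
    · apply hzP
      apply P.mul_mem_left
      have e : Λ ^ r + E ^ 2 = 64 * N.eval x - (8 * A.eval x + k) * (8 * A.eval x + k) := by
        linear_combination -hRx x
      rw [e]
      exact P.sub_mem (P.mul_mem_left _ h) (P.mul_mem_left _ h3)

end H89RF
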